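import Pool.Agent.H36.IS.SD
import Pool.Agent.H36.IS.BVw

/-!
# ISE: exact marks for project IS (MP_3532bd_nt): definitions

Marks are integers `m = a * q` with `q` prime and `a` in a finite set of cofactors; all prime factors of `a` are `> x^δ`
and `P(a) a ≤ x` (`P(a)` the largest prime factor), so that `q` is the largest prime factor of `m` and `a` is determined by `m`.
-/

set_option autoImplicit false

namespace Pool.Agent.H76.ISE

open Finset Filter Pool.Agent.H36.IS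

/-- `m = a * q` with `q` prime -/
def Mk1 (a m : ℕ) : Prop := a ∣ m ∧ (m / a).Prime

/-- the mark given by a finite set of cofactors -/
def MkS (S : Finset ℕ) (m : ℕ) : Prop := ∃ a ∈ S, Mk1 a m

/-- good cofactors at `x` -/
def Cof (x : ℕ) (δ : ℝ) (a : ℕ) : Prop :=
  0 < a ∧ (a : ℝ) ≤ (x : ℝ) ^ (7 / 10 : ℝ) ∧ ∀ p : ℕ, p.Prime → p ∣ a → (x : ℝ) ^ δ < p ∧ p * a ≤ x

/-- the number of marks in `(x, 2x]`, relative to `x / log x` -/
noncomputable def Lx (S : Finset ℕ) (x : ℕ) : ℝ := (∑ a ∈ S, DP (x / a)) * Real.log x / x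

/-- the primes in `(x^α, x^β]` -/
noncomputable def Cell (x : ℕ) (α β : ℝ) : Finset ℕ :=
  (range (x + 1)).filter (fun p : ℕ => p.Prime ∧ (x : ℝ) ^ α < p ∧ (p : ℝ) ≤ (x : ℝ) ^ β)

/-- the cofactors `1` and `p` with `x^δ < p ≤ x^(1/2)` -/
noncomputable def S2 (x : ℕ) (δ : ℝ) : Finset ℕ := insert 1 (Cell x δ (1 / 2))

/-- the pairs `(p₁, p₂)` of primes with `x^δ < p₁ < p₂`, `p₁ p₂² ≤ x` -/
noncomputable def Pr3 (x : ℕ) (δ : ℝ) : Finset (ℕ × ℕ) :=
  (Cell x δ 1 ×ˢ Cell x δ 1).filter (fun pq : ℕ × ℕ => pq.1 < pq.2 ∧ pq.1 * pq.2 ^ 2 ≤ x)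

/-- the cofactors `1`, `p`, `p₁ p₂` -/
noncomputable def S3 (x : ℕ) (δ : ℝ) : Finset ℕ := S2 x δ ∪ (Pr3 x δ).image (fun pq : ℕ × ℕ => pq.1 * pq.2)

/-- the error of the count of the marks with cofactor `a` (`s` the shift) -/
noncomputable def eQ (W s x a : ℕ) (Z : Finset ℕ) : ℝ :=
  open Classical in
  eB W 0 (x / a) Z + (2 * s + 4) +
    (if ∃ p ∈ Z, p ∣ a then DP (x / a) / (Nat.totient W : ℝ) * ∏ p ∈ Z, fn p else 0)

/-- at most two prime factors (with multiplicity), all of them larger than the sixth root -/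
def R2 (m : ℕ) : Prop := m.primeFactorsList.length ≤ 2 ∧ ∀ p : ℕ, p.Prime → p ∣ m → m < p ^ 6

/-- at most three prime factors (with multiplicity), all of them larger than the seventh root -/
def R3 (m : ℕ) : Prop := m.primeFactorsList.length ≤ 3 ∧ ∀ p : ℕ, p.Prime → p ∣ m → m < p ^ 7

end Pool.Agent.H76.ISE
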