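import Pool.Agent.H76.ISE.Defs
import Pool.Agent.H36.IS.Pnt

/-!
# ISE DPa: the prime number theorem at x/a

y = x / a (floor) satisfies x/a - 1 < y ≤ x/a and x/a ≥ x^(3/10), so y → ∞ uniformly in a, y ≥ (1 - ε/4) x/a and 0 < log y ≤ log x - log a.
`DP_pnt` at y: DP y ≥ (1 - ε/4) y/log y ≥ (1 - ε/4)² (x/a)/(log x - log a); multiply by log x/x:
DP y log x/x ≥ (1 - ε/4)² (1/a) log x/(log x - log a) = (1-ε/4)² (1/a) · 1/(1 - log a/log x).
-/

set_option autoImplicit false

namespace Pool.Agent.H76.ISE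

open Finset Filter Pool.Agent.H36.IS

theorem DP_cof (ε : ℝ) (hε : 0 < ε) : ∀ᶠ x : ℕ in atTop, ∀ a : ℕ, 0 < a → (a : ℝ) ≤ (x : ℝ) ^ (7 / 10 : ℝ) →
    (1 - ε) * (1 / (a : ℝ) * (1 / (1 - Real.log a / Real.log x))) ≤ DP (x / a) * Real.log x / x := by
  set η : ℝ := min ε 1 / 4 with hη
  have hη0 : 0 < η := by
    have : 0 < min ε 1 := lt_min hε one_pos
    positivity
  have hη1 : η ≤ 1 / 4 := by
    have : min ε 1 ≤ 1 := min_le_right _ _
    rw [hη]
    linarith
  have hηε : 2 * η ≤ ε := by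
    have : min ε 1 ≤ ε := min_le_left _ _
    rw [hη]
    linarith
  obtain ⟨Y, hY⟩ := eventually_atTop.1 (DP_pnt η hη0)
  have ht : Tendsto (fun x : ℕ => (x : ℝ) ^ (3 / 10 : ℝ)) atTop atTop :=
    (tendsto_rpow_atTop (by norm_num)).comp tendsto_natCast_atTop_atTop
  filter_upwards [ht.eventually_ge_atTop (max (Y + 3 : ℝ) (1 / η)), eventually_ge_atTop 2] with x hx hx2 a ha hax
  have hx3 : (Y + 3 : ℝ) ≤ (x : ℝ) ^ (3 / 10 : ℝ) := (le_max_left _ _).trans hx
  have hx4 : 1 / η ≤ (x : ℝ) ^ (3 / 10 : ℝ) := (le_max_right _ _).trans hx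
  have hxR : (2 : ℝ) ≤ x := by exact_mod_cast hx2
  have hx0 : (0 : ℝ) < x := by linarith
  have haR : (1 : ℝ) ≤ a := by exact_mod_cast ha
  have ha0 : (0 : ℝ) < a := by linarith
  -- x / a is large
  have hq : (x : ℝ) ^ (3 / 10 : ℝ) ≤ x / a := by
    rw [le_div_iff₀ ha0]
    calc (x : ℝ) ^ (3 / 10 : ℝ) * a ≤ (x : ℝ) ^ (3 / 10 : ℝ) * (x : ℝ) ^ (7 / 10 : ℝ) :=
          mul_le_mul_of_nonneg_left hax (by positivity)
      _ = x := by
          rw [← Real.rpow_add hx0]
          norm_num
  have hfl : (x : ℝ) / a - 1 < ((x / a : ℕ) : ℝ) := by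
    have := Nat.lt_floor_add_one ((x : ℝ) / a)
    rw [Nat.floor_div_natCast, Nat.floor_natCast] at this
    linarith
  have hfl2 : ((x / a : ℕ) : ℝ) ≤ x / a := Nat.cast_div_le
  set y : ℕ := x / a with hy
  have hyY : Y ≤ y := by
    have : (Y : ℝ) ≤ y := by linarith
    exact_mod_cast this
  have hy2 : (2 : ℝ) < y := by
    have : (0 : ℝ) ≤ Y := Nat.cast_nonneg Y
    linarith
  have hlogy : 0 < Real.log y := Real.log_pos (by linarith)
  have hDP := (hY y hyY).1
  have hlogx : 0 < Real.log x := Real.log_pos (by linarith)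
  have hlog : Real.log y ≤ Real.log x - Real.log a := by
    rw [← Real.log_div hx0.ne' ha0.ne']
    exact Real.log_le_log (by linarith) hfl2
  have hd : 0 < Real.log x - Real.log a := by linarith
  have hy3 : (1 - η) * (x / a) ≤ y := by
    have h1 : 1 ≤ η * (x / a) := by
      have := hx4.trans hq
      rw [div_le_iff₀ hη0] at this
      linarith
    linarith
  have h5 : (1 - η) * ((1 - η) * (x / a)) / (Real.log x - Real.log a) ≤ DP y := by
    calc (1 - η) * ((1 - η) * (x / a)) / (Real.log x - Real.log a)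
        ≤ (1 - η) * y / (Real.log x - Real.log a) := by
          apply div_le_div_of_nonneg_right _ hd.le
          exact mul_le_mul_of_nonneg_left hy3 (by linarith)
      _ ≤ (1 - η) * y / Real.log y := by
          apply div_le_div_of_nonneg_left _ hlogy hlog
          have : (0 : ℝ) ≤ y := by linarith
          exact mul_nonneg (by linarith) this
      _ = (1 - η) * (y / Real.log y) := by ring
      _ ≤ DP y := hDP
  have h6 : 1 / (1 - Real.log a / Real.log x) = Real.log x / (Real.log x - Real.log a) := by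
    have : 1 - Real.log a / Real.log x = (Real.log x - Real.log a) / Real.log x := by
      field_simp
    rw [this, one_div_div]
  rw [h6, mul_div_assoc]
  have h7 : (1 - ε) * (1 / (a : ℝ) * (Real.log x / (Real.log x - Real.log a))) ≤
      (1 - η) * ((1 - η) * (x / a)) / (Real.log x - Real.log a) * (Real.log x / x) := by
    have h8 : (1 - η) * ((1 - η) * (x / a)) / (Real.log x - Real.log a) * (Real.log x / x) =
        ((1 - η) * (1 - η)) * (1 / (a : ℝ) * (Real.log x / (Real.log x - Real.log a))) := by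
      field_simp
    rw [h8]
    apply mul_le_mul_of_nonneg_right
    · nlinarith
    · positivity
  exact h7.trans (mul_le_mul_of_nonneg_right h5 (by positivity))

end Pool.Agent.H76.ISE
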