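import Pool.Agent.H76.ISE.Defs
import Pool.Agent.H36.IS.Asy

/-!
# ISE Err: the sum of the errors

y = x / a ≥ x^(3/10) - 1 ≥ x^(0.29), and y ≥ x/(2a).  C ≥ 1.  Split eQ into its three parts.
(1) `bvw W 0 hW C (1/20) hC _ A'` at y (eventually in y, and y ≥ x^0.29 → ∞ uniformly in a): the sum over Z ⊆ {p ≤ y prime, p ∤ W},
 ∏ ≤ y^(1/2 - 1/20) of C^|Z| eB W 0 y Z is ≤ y/(log y)^A'; our Z: ∏ p ≤ x^(3/25) ≤ y^(9/20) (0.29·0.45 = 0.1305 > 0.12), so every
 p ∈ Z is ≤ x^0.12 ≤ y; p ∤ W: for p ∈ PS by definition, for p ∈ PX since p > z0 x > W for large x.  eB ≥ 0, so a subset sum.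
 y/(log y)^A' ≤ (x/a)/(0.29 log x)^A' ≤ x/(3 a (log x)^A) with A' = A + 1 (large x).
(2) (2s+4) ∑ C^|Z| ≤ (2s+4) x^(0.12) ∏_{p ≤ x} (1 + C/p) (`sum_pow_le`) ≤ x^(0.12) (log x)^B (`euler_pow`, 1/p ≤ fn p) ≤ x^(0.2) ≤
 x^(0.3)/(3 (log x)^A) ≤ x/(3 a (log x)^A).
(3) DP y ≤ y ≤ x/a, φ(W) ≥ 1:  ∑_{Z : ∃ p ∈ Z, p ∣ a} C^|Z| ∏ fn ≤ ∑_{p ∣ a prime} C fn p ∑_{Z'} C^|Z'| ∏ fn ≤ (number of primes dividing a, ≤ log x/log 2 ≤ 2 log x
 since a ≤ x) · C · 2 x^(-δ) · (log x)^B ≤ 1/(3 (log x)^A).   (remove p from Z: Z = insert p Z'; ∑_{Z' ⊆ P} C^|Z'| ∏ fn = ∏ (1 + C fn p) ≤ (log x)^B.)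
-/

set_option autoImplicit false

namespace Pool.Agent.H76.ISE

open Finset Filter Pool.Agent.H36.IS

private theorem Err_logpow (K : ℝ) (n : ℕ) (c : ℝ) (hc : 0 < c) :
    ∀ᶠ x : ℕ in atTop, K * Real.log x ^ n ≤ (x : ℝ) ^ c := by
  have h := isLittleO_log_rpow_rpow_atTop (n : ℝ) hc
  have hk : 0 < 1 / (|K| + 1) := by positivity
  have h1 := h.def hk
  have h2 : ∀ᶠ x : ℝ in atTop, K * Real.log x ^ n ≤ x ^ c := by
    filter_upwards [h1, eventually_ge_atTop 1] with x hx hx1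
    have hl : 0 ≤ Real.log x := Real.log_nonneg hx1
    rw [Real.rpow_natCast, Real.norm_of_nonneg (by positivity),
      Real.norm_of_nonneg (by positivity)] at hx
    have hK : 0 < |K| + 1 := by positivity
    have hx2 : (|K| + 1) * Real.log x ^ n ≤ x ^ c := by
      rw [one_div, inv_mul_eq_div, le_div_iff₀ hK] at hx
      linarith
    refine le_trans ?_ hx2
    exact mul_le_mul_of_nonneg_right ((le_abs_self K).trans (by linarith)) (by positivity)
  exact tendsto_natCast_atTop_atTop.eventually h2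

private theorem Err_z0 (W : ℕ) : ∀ᶠ x : ℕ in atTop, (W : ℝ) < z0 x := by
  have hk : (0 : ℝ) < 1 / ((W : ℝ) + 1) := by positivity
  have h := (isLittleO_log_rpow_rpow_atTop (2 : ℝ) (one_pos : (0 : ℝ) < 1)).def hk
  have h1 : ∀ᶠ L : ℝ in atTop, (W : ℝ) + 1 ≤ L / Real.log L ^ 2 := by
    filter_upwards [h, eventually_gt_atTop 1] with L hL hL1
    have hl : 0 < Real.log L := Real.log_pos hL1
    rw [Real.rpow_ofNat, Real.rpow_one, Real.norm_of_nonneg (by positivity),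
      Real.norm_of_nonneg (by linarith)] at hL
    rw [le_div_iff₀ (by positivity)]
    have hW : (0 : ℝ) < (W : ℝ) + 1 := by positivity
    rw [one_div, inv_mul_eq_div, le_div_iff₀ hW] at hL
    linarith
  have h2 : ∀ᶠ x : ℝ in atTop, (W : ℝ) < Real.exp (Real.log x / (Real.log (Real.log x)) ^ 2) := by
    filter_upwards [Real.tendsto_log_atTop.eventually h1] with x hx
    have h3 := Real.add_one_le_exp (Real.log x / (Real.log (Real.log x)) ^ 2)
    linarith
  exact tendsto_natCast_atTop_atTop.eventually h2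

private theorem Err_prime {W x p : ℕ} (hp : p ∈ PS W x ∪ PX x) :
    p.Prime ∧ p < x + 1 := by
  rw [Finset.mem_union] at hp
  rcases hp with hp | hp
  · unfold PS PA at hp
    rw [Finset.mem_filter, Finset.mem_filter, Finset.mem_range] at hp
    exact ⟨hp.1.2.1, hp.1.1⟩
  · unfold PX at hp
    rw [Finset.mem_filter, Finset.mem_range] at hp
    exact ⟨hp.2.1, hp.1⟩

private theorem Err_ndvd {W x p : ℕ} (hW : 0 < W) (hz : (W : ℝ) < z0 x)
    (hp : p ∈ PS W x ∪ PX x) : ¬ p ∣ W := by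
  rw [Finset.mem_union] at hp
  rcases hp with hp | hp
  · unfold PS at hp
    rw [Finset.mem_filter] at hp
    exact hp.2
  · unfold PX at hp
    rw [Finset.mem_filter] at hp
    intro hd
    have h1 := Nat.le_of_dvd hW hd
    have h2 : (p : ℝ) ≤ W := by exact_mod_cast h1
    linarith [hp.2.2]

private theorem Err_fn_nonneg {p : ℕ} (hp : p.Prime) : 0 ≤ fn p := by
  unfold fn
  have : (2 : ℝ) ≤ p := by exact_mod_cast hp.two_le
  exact div_nonneg zero_le_one (by linarith)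

private theorem Err_inv_le_fn {p : ℕ} (hp : p.Prime) (C : ℝ) (hC : 0 ≤ C) : C / p ≤ C * fn p := by
  unfold fn
  have : (2 : ℝ) ≤ p := by exact_mod_cast hp.two_le
  rw [mul_one_div]
  exact div_le_div_of_nonneg_left hC (by linarith) (by linarith)

private theorem Err_eB_nonneg (W s x : ℕ) (Z : Finset ℕ) : 0 ≤ eB W s x Z := by
  unfold eB
  exact Real.iSup_nonneg fun a => abs_nonneg _

private theorem Err_DP_le (y : ℕ) : DP y ≤ y := by
  unfold DP
  have h : Nat.primeCounting (2 * y) ≤ Nat.primeCounting y + y := by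
    unfold Nat.primeCounting Nat.primeCounting'
    have e : 2 * y + 1 = (y + 1) + y := by ring
    rw [e, Nat.count_add]
    exact Nat.add_le_add_left (Nat.count_le _) _
  have h2 : (Nat.primeCounting (2 * y) : ℝ) ≤ Nat.primeCounting y + y := by exact_mod_cast h
  linarith

/-- the sum over the sets with a prime dividing `a` -/
private theorem Err_sumC (P : Finset ℕ) (hP : ∀ p ∈ P, p.Prime) (C : ℝ) (hC : 0 ≤ C) (a : ℕ) :
    ∑ Z ∈ P.powerset.filter (fun Z : Finset ℕ => ∃ p ∈ Z, p ∣ a), C ^ Z.card * ∏ p ∈ Z, fn p ≤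
      (∑ p ∈ P.filter (fun p => p ∣ a), C * fn p) * ∏ p ∈ P, (1 + C * fn p) := by
  classical
  have hg : ∀ Z : Finset ℕ, C ^ Z.card * ∏ p ∈ Z, fn p = ∏ p ∈ Z, (C * fn p) := by
    intro Z
    rw [Finset.prod_mul_distrib, Finset.prod_const]
  have hg0 : ∀ Z ∈ P.powerset, 0 ≤ ∏ p ∈ Z, (C * fn p) := by
    intro Z hZ
    rw [Finset.mem_powerset] at hZ
    exact Finset.prod_nonneg fun p hp => mul_nonneg hC (Err_fn_nonneg (hP p (hZ hp)))
  simp only [hg]
  calc ∑ Z ∈ P.powerset.filter (fun Z : Finset ℕ => ∃ p ∈ Z, p ∣ a), ∏ p ∈ Z, (C * fn p)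
      = ∑ Z ∈ P.powerset, if ∃ p ∈ Z, p ∣ a then ∏ p ∈ Z, (C * fn p) else 0 := by
        rw [Finset.sum_filter]
    _ ≤ ∑ Z ∈ P.powerset, ∑ q ∈ P.filter (fun p => p ∣ a),
          if q ∈ Z then ∏ p ∈ Z, (C * fn p) else 0 := by
        refine Finset.sum_le_sum fun Z hZ => ?_
        have h0 := hg0 Z hZ
        split_ifs with h
        · obtain ⟨q, hq, hqa⟩ := h
          have hqP : q ∈ P.filter (fun p => p ∣ a) := by
            rw [Finset.mem_filter]
            exact ⟨(Finset.mem_powerset.1 hZ) hq, hqa⟩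
          have h1 := Finset.single_le_sum
            (f := fun q => if q ∈ Z then ∏ p ∈ Z, (C * fn p) else 0)
            (fun i _ => by
              show (0 : ℝ) ≤ if i ∈ Z then ∏ p ∈ Z, (C * fn p) else 0
              split_ifs
              · exact h0
              · exact le_rfl) hqP
          simp only [if_pos hq] at h1
          exact h1
        · exact Finset.sum_nonneg fun i _ => by
            split_ifs
            · exact h0
            · exact le_rfl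
    _ = ∑ q ∈ P.filter (fun p => p ∣ a), ∑ Z ∈ P.powerset,
          if q ∈ Z then ∏ p ∈ Z, (C * fn p) else 0 := Finset.sum_comm
    _ ≤ ∑ q ∈ P.filter (fun p => p ∣ a), (C * fn q) * ∏ p ∈ P, (1 + C * fn p) := by
        refine Finset.sum_le_sum fun q hq => ?_
        rw [Finset.mem_filter] at hq
        rw [← Finset.sum_filter, Finset.prod_one_add]
        have h1 : ∑ Z ∈ P.powerset.filter (fun Z => q ∈ Z), ∏ p ∈ Z, (C * fn p) =
            (C * fn q) * ∑ Z ∈ P.powerset.filter (fun Z => q ∈ Z),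
              ∏ p ∈ Z.erase q, (C * fn p) := by
          rw [Finset.mul_sum]
          refine Finset.sum_congr rfl fun Z hZ => ?_
          rw [Finset.mem_filter] at hZ
          exact (Finset.mul_prod_erase Z (fun p => C * fn p) hZ.2).symm
        rw [h1]
        refine mul_le_mul_of_nonneg_left ?_ (mul_nonneg hC (Err_fn_nonneg (hP q hq.1)))
        have h2 : ∑ Z ∈ P.powerset.filter (fun Z => q ∈ Z), ∏ p ∈ Z.erase q, (C * fn p) =
            ∑ Z ∈ (P.powerset.filter (fun Z => q ∈ Z)).image (fun Z => Z.erase q),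
              ∏ p ∈ Z, (C * fn p) := by
          rw [Finset.sum_image]
          intro Z hZ Z' hZ' h
          rw [Finset.mem_coe, Finset.mem_filter] at hZ hZ'
          have h' : Z.erase q = Z'.erase q := h
          rw [← Finset.insert_erase hZ.2, ← Finset.insert_erase hZ'.2, h']
        rw [h2]
        refine Finset.sum_le_sum_of_subset_of_nonneg ?_ (fun Z hZ _ => hg0 Z hZ)
        intro Z hZ
        rw [Finset.mem_image] at hZ
        obtain ⟨Z', hZ', rfl⟩ := hZ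
        rw [Finset.mem_filter, Finset.mem_powerset] at hZ'
        rw [Finset.mem_powerset]
        exact (Finset.erase_subset _ _).trans hZ'.1
    _ = (∑ p ∈ P.filter (fun p => p ∣ a), C * fn p) * ∏ p ∈ P, (1 + C * fn p) := by
        rw [Finset.sum_mul]

/-- the number of the primes of `a` -/
private theorem Err_omega {a : ℕ} (ha : 0 < a) (P : Finset ℕ) (hP : ∀ p ∈ P, p.Prime) :
    ((P.filter (fun p => p ∣ a)).card : ℝ) * Real.log 2 ≤ Real.log a := by
  have h1 : ∏ p ∈ P.filter (fun p => p ∣ a), p ∣ a := by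
    apply Finset.prod_primes_dvd
    · intro p hp
      rw [Finset.mem_filter] at hp
      exact (hP p hp.1).prime
    · intro p hp
      rw [Finset.mem_filter] at hp
      exact hp.2
  have h2 : 2 ^ (P.filter (fun p => p ∣ a)).card ≤ ∏ p ∈ P.filter (fun p => p ∣ a), p := by
    apply Finset.pow_card_le_prod
    intro p hp
    rw [Finset.mem_filter] at hp
    exact (hP p hp.1).two_le
  have h3 := h2.trans (Nat.le_of_dvd ha h1)
  have h4 : ((2 : ℝ) ^ (P.filter (fun p => p ∣ a)).card) ≤ a := by exact_mod_cast h3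
  have h5 := Real.log_le_log (by positivity) h4
  rwa [Real.log_pow] at h5

theorem err_Q (W s : ℕ) (hW : 0 < W) (C δ : ℝ) (hC : 1 ≤ C) (hδ : 0 < δ) (A : ℕ) : ∀ᶠ x : ℕ in atTop, ∀ a : ℕ,
    0 < a → (a : ℝ) ≤ (x : ℝ) ^ (7 / 10 : ℝ) → (∀ p : ℕ, p.Prime → p ∣ a → (x : ℝ) ^ δ < p) →
    ∑ Z ∈ (PS W x ∪ PX x).powerset.filter (fun Z : Finset ℕ => ∏ p ∈ Z, (p : ℝ) ≤ (x : ℝ) ^ (3 / 25 : ℝ)),
      C ^ Z.card * eQ W s x a Z ≤ x / (a * Real.log x ^ A) := by
  classical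
  have hC0 : 0 ≤ C := by linarith
  obtain ⟨B, hB⟩ := euler_pow C hC0
  have hbv := bvw W 0 hW C (1 / 20) hC (by norm_num) (A + 1)
  rw [eventually_atTop] at hbv
  obtain ⟨Y0, hY0⟩ := hbv
  -- conditions on `x`
  have hc1 := Err_logpow (2 : ℝ) 0 (1 / 100) (by norm_num)
  have hc2 := Err_logpow (Y0 : ℝ) 0 (29 / 100) (by norm_num)
  have hc3 := Err_logpow (3 * (2 * s + 4)) (A + B) (18 / 100) (by norm_num)
  have hc4 := Err_logpow (12 * C) (1 + A + B) δ hδ
  have hc5 : ∀ᶠ x : ℕ in atTop, 3 * (100 / 29 : ℝ) ^ (A + 1) ≤ Real.log x :=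
    (Real.tendsto_log_atTop.comp tendsto_natCast_atTop_atTop).eventually
      (eventually_ge_atTop _)
  filter_upwards [hB, hc1, hc2, hc3, hc4, hc5, Err_z0 W, eventually_ge_atTop 3] with x hB hc1 hc2
    hc3 hc4 hc5 hz hx3 a ha ha2 ha3
  have hx0 : (0 : ℝ) < x := by
    have : (3 : ℝ) ≤ x := by exact_mod_cast hx3
    linarith
  have hx1 : (1 : ℝ) < x := by
    have : (3 : ℝ) ≤ x := by exact_mod_cast hx3
    linarith
  have hL : 0 < Real.log x := Real.log_pos hx1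
  have ha0 : (0 : ℝ) < a := by exact_mod_cast ha
  have hP : ∀ p ∈ PS W x ∪ PX x, p.Prime := fun p hp => (Err_prime hp).1
  have hPs : PS W x ∪ PX x ⊆ (range (x + 1)).filter Nat.Prime := by
    intro p hp
    rw [Finset.mem_filter, Finset.mem_range]
    exact ⟨(Err_prime hp).2, (Err_prime hp).1⟩
  -- Euler product
  have hE : ∏ p ∈ PS W x ∪ PX x, (1 + C * fn p) ≤ Real.log x ^ B := by
    refine le_trans ?_ hB
    rw [← Finset.prod_sdiff hPs]
    have h1 : (1 : ℝ) ≤ ∏ p ∈ (range (x + 1)).filter Nat.Prime \ (PS W x ∪ PX x), (1 + C * fn p) := by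
      have h2 : ∏ p ∈ (range (x + 1)).filter Nat.Prime \ (PS W x ∪ PX x), (1 : ℝ) ≤
          ∏ p ∈ (range (x + 1)).filter Nat.Prime \ (PS W x ∪ PX x), (1 + C * fn p) := by
        refine Finset.prod_le_prod (fun _ _ => zero_le_one) fun p hp => ?_
        rw [Finset.mem_sdiff, Finset.mem_filter] at hp
        have := mul_nonneg hC0 (Err_fn_nonneg hp.1.2)
        linarith
      rwa [Finset.prod_const_one] at h2
    have h3 : (0 : ℝ) ≤ ∏ p ∈ PS W x ∪ PX x, (1 + C * fn p) :=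
      Finset.prod_nonneg fun p hp => by
        have := mul_nonneg hC0 (Err_fn_nonneg (hP p hp))
        linarith
    exact le_mul_of_one_le_left h3 h1
  -- sizes
  have hax : (x : ℝ) ^ (3 / 10 : ℝ) ≤ x / a := by
    rw [le_div_iff₀ ha0]
    calc (x : ℝ) ^ (3 / 10 : ℝ) * a ≤ (x : ℝ) ^ (3 / 10 : ℝ) * (x : ℝ) ^ (7 / 10 : ℝ) :=
          mul_le_mul_of_nonneg_left ha2 (by positivity)
      _ = x := by
          rw [← Real.rpow_add hx0]
          norm_num
  have hale : (a : ℝ) ≤ x := by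
    refine ha2.trans ?_
    calc (x : ℝ) ^ (7 / 10 : ℝ) ≤ (x : ℝ) ^ (1 : ℝ) :=
          Real.rpow_le_rpow_of_exponent_le hx1.le (by norm_num)
      _ = x := Real.rpow_one _
  have hale' : a ≤ x := by exact_mod_cast hale
  have hyle : ((x / a : ℕ) : ℝ) ≤ x / a := Nat.cast_div_le
  have hy1 : 1 ≤ x / a := (Nat.one_le_div_iff ha).2 hale'
  have hyge : (x : ℝ) / a ≤ 2 * ((x / a : ℕ) : ℝ) := by
    rw [div_le_iff₀ ha0]
    have h1 : x < x / a * a + a := Nat.lt_div_mul_add ha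
    have h2 : x ≤ 2 * (x / a) * a := by nlinarith
    exact_mod_cast h2
  have hy : (x : ℝ) ^ (29 / 100 : ℝ) ≤ ((x / a : ℕ) : ℝ) := by
    have h1 : (x : ℝ) ^ (3 / 10 : ℝ) = (x : ℝ) ^ (29 / 100 : ℝ) * (x : ℝ) ^ (1 / 100 : ℝ) := by
      rw [← Real.rpow_add hx0]
      norm_num
    have h2 : 2 ≤ (x : ℝ) ^ (1 / 100 : ℝ) := by
      rw [pow_zero, mul_one] at hc1
      exact hc1
    have h3 : 0 ≤ (x : ℝ) ^ (29 / 100 : ℝ) := by positivity
    nlinarith
  have hyY : Y0 ≤ x / a := by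
    rw [pow_zero, mul_one] at hc2
    have := hc2.trans hy
    exact_mod_cast this
  have hy0 : (1 : ℝ) ≤ ((x / a : ℕ) : ℝ) := by exact_mod_cast hy1
  have hlogy : (29 / 100 : ℝ) * Real.log x ≤ Real.log ((x / a : ℕ) : ℝ) := by
    have h1 := Real.log_le_log (by positivity) hy
    rwa [Real.log_rpow hx0] at h1
  -- the three parts
  have hpow : (x : ℝ) ^ (3 / 25 : ℝ) ≤ ((x / a : ℕ) : ℝ) ^ (1 / 2 - 1 / 20 : ℝ) := by
    calc (x : ℝ) ^ (3 / 25 : ℝ) ≤ (x : ℝ) ^ ((29 / 100 : ℝ) * (1 / 2 - 1 / 20)) :=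
          Real.rpow_le_rpow_of_exponent_le hx1.le (by norm_num)
      _ = ((x : ℝ) ^ (29 / 100 : ℝ)) ^ (1 / 2 - 1 / 20 : ℝ) := by
          rw [Real.rpow_mul hx0.le]
      _ ≤ ((x / a : ℕ) : ℝ) ^ (1 / 2 - 1 / 20 : ℝ) :=
          Real.rpow_le_rpow (by positivity) hy (by norm_num)
  have hpow1 : ((x / a : ℕ) : ℝ) ^ (1 / 2 - 1 / 20 : ℝ) ≤ ((x / a : ℕ) : ℝ) := by
    calc ((x / a : ℕ) : ℝ) ^ (1 / 2 - 1 / 20 : ℝ) ≤ ((x / a : ℕ) : ℝ) ^ (1 : ℝ) :=
          Real.rpow_le_rpow_of_exponent_le hy0 (by norm_num)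
      _ = ((x / a : ℕ) : ℝ) := Real.rpow_one _
  have hS1 : ∑ Z ∈ (PS W x ∪ PX x).powerset.filter
      (fun Z : Finset ℕ => ∏ p ∈ Z, (p : ℝ) ≤ (x : ℝ) ^ (3 / 25 : ℝ)),
      C ^ Z.card * eB W 0 (x / a) Z ≤ x / (a * Real.log x ^ A) / 3 := by
    have h1 := hY0 (x / a) hyY
    have h2 : ∑ Z ∈ (PS W x ∪ PX x).powerset.filter
        (fun Z : Finset ℕ => ∏ p ∈ Z, (p : ℝ) ≤ (x : ℝ) ^ (3 / 25 : ℝ)),
        C ^ Z.card * eB W 0 (x / a) Z ≤
        ∑ Z ∈ ((range (x / a + 1)).filter (fun p : ℕ => p.Prime ∧ ¬ p ∣ W)).powerset.filter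
        (fun Z : Finset ℕ => ∏ p ∈ Z, (p : ℝ) ≤ ((x / a : ℕ) : ℝ) ^ (1 / 2 - 1 / 20 : ℝ)),
        C ^ Z.card * eB W 0 (x / a) Z := by
      refine Finset.sum_le_sum_of_subset_of_nonneg ?_ ?_
      · intro Z hZ
        rw [Finset.mem_filter, Finset.mem_powerset] at hZ ⊢
        refine ⟨fun p hp => ?_, hZ.2.trans hpow⟩
        have hpP := hZ.1 hp
        rw [Finset.mem_filter, Finset.mem_range]
        refine ⟨?_, hP p hpP, Err_ndvd hW hz hpP⟩
        have h3 : (p : ℝ) ≤ ∏ q ∈ Z, (q : ℝ) := by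
          rw [← Finset.mul_prod_erase Z (fun q : ℕ => (q : ℝ)) hp]
          refine le_mul_of_one_le_right (Nat.cast_nonneg p) ?_
          have h4 : ∏ q ∈ Z.erase p, (1 : ℝ) ≤ ∏ q ∈ Z.erase p, (q : ℝ) := by
            refine Finset.prod_le_prod (fun _ _ => zero_le_one) fun q hq => ?_
            exact_mod_cast (hP q (hZ.1 (Finset.mem_of_mem_erase hq))).one_le
          rwa [Finset.prod_const_one] at h4
        have h5 : (p : ℝ) ≤ ((x / a : ℕ) : ℝ) := h3.trans (hZ.2.trans (hpow.trans hpow1))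
        have h6 : p ≤ x / a := by exact_mod_cast h5
        omega
      · intro Z _ _
        exact mul_nonneg (pow_nonneg hC0 _) (Err_eB_nonneg _ _ _ _)
    refine h2.trans (h1.trans ?_)
    have h3 : 0 < (29 / 100 : ℝ) * Real.log x := by positivity
    have h4 : ((29 / 100 : ℝ) * Real.log x) ^ (A + 1) ≤ Real.log ((x / a : ℕ) : ℝ) ^ (A + 1) :=
      pow_le_pow_left₀ h3.le hlogy _
    calc ((x / a : ℕ) : ℝ) / Real.log ((x / a : ℕ) : ℝ) ^ (A + 1)
        ≤ (x / a) / ((29 / 100 : ℝ) * Real.log x) ^ (A + 1) :=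
          div_le_div₀ (by positivity) hyle (by positivity) h4
      _ ≤ x / (a * Real.log x ^ A) / 3 := by
          have e1 : x / (a * Real.log x ^ A) / 3 = (x / a) / (3 * Real.log x ^ A) := by
            field_simp
          rw [e1]
          refine div_le_div_of_nonneg_left (by positivity) (by positivity) ?_
          rw [mul_pow, pow_succ (Real.log x)]
          have h5 : (0 : ℝ) < (29 / 100 : ℝ) ^ (A + 1) := by positivity
          have h6 : (29 / 100 : ℝ) ^ (A + 1) * (100 / 29 : ℝ) ^ (A + 1) = 1 := by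
            rw [← mul_pow]
            norm_num
          have h7 : 3 ≤ (29 / 100 : ℝ) ^ (A + 1) * Real.log x := by
            calc (3 : ℝ) = (29 / 100 : ℝ) ^ (A + 1) * (3 * (100 / 29 : ℝ) ^ (A + 1)) := by
                  linear_combination (-3 : ℝ) * h6
              _ ≤ _ := mul_le_mul_of_nonneg_left hc5 h5.le
          have h8 : 0 ≤ Real.log x ^ A := by positivity
          calc 3 * Real.log x ^ A ≤ ((29 / 100 : ℝ) ^ (A + 1) * Real.log x) * Real.log x ^ A :=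
                mul_le_mul_of_nonneg_right h7 h8
            _ = _ := by ring
  have hS2 : ∑ Z ∈ (PS W x ∪ PX x).powerset.filter
      (fun Z : Finset ℕ => ∏ p ∈ Z, (p : ℝ) ≤ (x : ℝ) ^ (3 / 25 : ℝ)),
      C ^ Z.card * (2 * (s : ℝ) + 4) ≤ x / (a * Real.log x ^ A) / 3 := by
    rw [← Finset.sum_mul]
    have h1 := sum_pow_le (PS W x ∪ PX x) hP C ((x : ℝ) ^ (3 / 25 : ℝ)) hC0 (by positivity)
    have h2 : ∏ p ∈ PS W x ∪ PX x, (1 + C / p) ≤ Real.log x ^ B := by
      refine le_trans ?_ hE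
      refine Finset.prod_le_prod (fun p _ => by positivity) fun p hp => ?_
      have := Err_inv_le_fn (hP p hp) C hC0
      linarith
    have h3 : ∑ Z ∈ (PS W x ∪ PX x).powerset.filter
      (fun Z : Finset ℕ => ∏ p ∈ Z, (p : ℝ) ≤ (x : ℝ) ^ (3 / 25 : ℝ)), C ^ Z.card ≤
        (x : ℝ) ^ (3 / 25 : ℝ) * Real.log x ^ B :=
      h1.trans (mul_le_mul_of_nonneg_left h2 (by positivity))
    have e1 : x / (a * Real.log x ^ A) / 3 = (x / a) / (3 * Real.log x ^ A) := by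
      field_simp
    rw [e1, le_div_iff₀ (by positivity)]
    calc (∑ Z ∈ (PS W x ∪ PX x).powerset.filter
          (fun Z : Finset ℕ => ∏ p ∈ Z, (p : ℝ) ≤ (x : ℝ) ^ (3 / 25 : ℝ)), C ^ Z.card) *
          (2 * (s : ℝ) + 4) * (3 * Real.log x ^ A)
        ≤ ((x : ℝ) ^ (3 / 25 : ℝ) * Real.log x ^ B) * (2 * (s : ℝ) + 4) * (3 * Real.log x ^ A) := by
          gcongr
      _ = (x : ℝ) ^ (3 / 25 : ℝ) * (3 * (2 * s + 4) * Real.log x ^ (A + B)) := by
          rw [pow_add]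
          ring
      _ ≤ (x : ℝ) ^ (3 / 25 : ℝ) * (x : ℝ) ^ (18 / 100 : ℝ) :=
          mul_le_mul_of_nonneg_left hc3 (by positivity)
      _ = (x : ℝ) ^ (3 / 10 : ℝ) := by
          rw [← Real.rpow_add hx0]
          norm_num
      _ ≤ x / a := hax
  have hS3 : ∑ Z ∈ (PS W x ∪ PX x).powerset.filter
      (fun Z : Finset ℕ => ∏ p ∈ Z, (p : ℝ) ≤ (x : ℝ) ^ (3 / 25 : ℝ)),
      C ^ Z.card * (if ∃ p ∈ Z, p ∣ a then DP (x / a) / (Nat.totient W : ℝ) * ∏ p ∈ Z, fn p else 0) ≤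
      x / (a * Real.log x ^ A) / 3 := by
    have hDP : DP (x / a) / (Nat.totient W : ℝ) ≤ x / a := by
      have h1 : (1 : ℝ) ≤ Nat.totient W := by exact_mod_cast Nat.totient_pos.2 hW
      rw [div_le_iff₀ (by linarith)]
      have h2 : 0 ≤ (x : ℝ) / a := by positivity
      have h3 := Err_DP_le (x / a)
      nlinarith
    have h1 : ∑ Z ∈ (PS W x ∪ PX x).powerset.filter
        (fun Z : Finset ℕ => ∏ p ∈ Z, (p : ℝ) ≤ (x : ℝ) ^ (3 / 25 : ℝ)),
        C ^ Z.card * (if ∃ p ∈ Z, p ∣ a then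
          DP (x / a) / (Nat.totient W : ℝ) * ∏ p ∈ Z, fn p else 0) ≤
        (x / a) * ∑ Z ∈ (PS W x ∪ PX x).powerset.filter (fun Z : Finset ℕ => ∃ p ∈ Z, p ∣ a),
          C ^ Z.card * ∏ p ∈ Z, fn p := by
      rw [Finset.mul_sum, Finset.sum_filter, Finset.sum_filter]
      refine Finset.sum_le_sum fun Z hZ => ?_
      rw [Finset.mem_powerset] at hZ
      have hf : 0 ≤ ∏ p ∈ Z, fn p := Finset.prod_nonneg fun p hp => Err_fn_nonneg (hP p (hZ hp))
      have hCz : 0 ≤ C ^ Z.card := pow_nonneg hC0 _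
      have h2 : 0 ≤ (x : ℝ) / a * (C ^ Z.card * ∏ p ∈ Z, fn p) := by positivity
      by_cases hd : ∃ p ∈ Z, p ∣ a
      · rw [if_pos hd, if_pos hd]
        by_cases hx : ∏ p ∈ Z, (p : ℝ) ≤ (x : ℝ) ^ (3 / 25 : ℝ)
        · rw [if_pos hx]
          calc C ^ Z.card * (DP (x / a) / (Nat.totient W : ℝ) * ∏ p ∈ Z, fn p)
              = DP (x / a) / (Nat.totient W : ℝ) * (C ^ Z.card * ∏ p ∈ Z, fn p) := by ring
            _ ≤ _ := mul_le_mul_of_nonneg_right hDP (mul_nonneg hCz hf)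
        · rw [if_neg hx]
          exact h2
      · rw [if_neg hd, if_neg hd, mul_zero, ite_self]
    refine h1.trans ?_
    have h2 := Err_sumC (PS W x ∪ PX x) hP C hC0 a
    have h3 : ∑ p ∈ (PS W x ∪ PX x).filter (fun p => p ∣ a), C * fn p ≤
        4 * C * Real.log x * (x : ℝ) ^ (-δ) := by
      have h4 : ∀ p ∈ (PS W x ∪ PX x).filter (fun p => p ∣ a), C * fn p ≤
          2 * C * (x : ℝ) ^ (-δ) := by
        intro p hp
        rw [Finset.mem_filter] at hp
        have hpp := hP p hp.1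
        have h5 := ha3 p hpp hp.2
        have h6 : (2 : ℝ) ≤ p := by exact_mod_cast hpp.two_le
        have h7 : fn p ≤ 2 * (x : ℝ) ^ (-δ) := by
          unfold fn
          rw [Real.rpow_neg hx0.le, ← div_eq_mul_inv]
          rw [div_le_div_iff₀ (by linarith) (by positivity)]
          linarith
        calc C * fn p ≤ C * (2 * (x : ℝ) ^ (-δ)) := mul_le_mul_of_nonneg_left h7 hC0
          _ = _ := by ring
      have h5 := Finset.sum_le_card_nsmul _ _ _ h4
      rw [nsmul_eq_mul] at h5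
      refine h5.trans ?_
      have h6 := Err_omega ha (PS W x ∪ PX x) hP
      have h7 : Real.log a ≤ Real.log x := Real.log_le_log ha0 hale
      have h8 : (1 / 2 : ℝ) < Real.log 2 := by
        have := Real.log_two_gt_d9
        linarith
      have h9 : (((PS W x ∪ PX x).filter (fun p => p ∣ a)).card : ℝ) ≤ 2 * Real.log x := by
        have h10 : (0 : ℝ) ≤ (((PS W x ∪ PX x).filter (fun p => p ∣ a)).card : ℝ) :=
          Nat.cast_nonneg _
        nlinarith
      calc (((PS W x ∪ PX x).filter (fun p => p ∣ a)).card : ℝ) * (2 * C * (x : ℝ) ^ (-δ))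
          ≤ (2 * Real.log x) * (2 * C * (x : ℝ) ^ (-δ)) :=
            mul_le_mul_of_nonneg_right h9 (by positivity)
        _ = _ := by ring
    have hE0 : (0 : ℝ) ≤ ∏ p ∈ PS W x ∪ PX x, (1 + C * fn p) :=
      Finset.prod_nonneg fun p hp => by
        have := mul_nonneg hC0 (Err_fn_nonneg (hP p hp))
        linarith
    have h4 : ∑ Z ∈ (PS W x ∪ PX x).powerset.filter (fun Z : Finset ℕ => ∃ p ∈ Z, p ∣ a),
          C ^ Z.card * ∏ p ∈ Z, fn p ≤
        (4 * C * Real.log x * (x : ℝ) ^ (-δ)) * Real.log x ^ B :=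
      h2.trans (mul_le_mul h3 hE hE0 (by positivity))
    have e1 : x / (a * Real.log x ^ A) / 3 = (x / a) * (1 / (3 * Real.log x ^ A)) := by
      field_simp
    rw [e1]
    refine mul_le_mul_of_nonneg_left (h4.trans ?_) (by positivity)
    rw [le_div_iff₀ (by positivity)]
    have h5 : (x : ℝ) ^ (-δ) * (x : ℝ) ^ δ = 1 := by
      rw [← Real.rpow_add hx0]
      simp
    calc (4 * C * Real.log x * (x : ℝ) ^ (-δ)) * Real.log x ^ B * (3 * Real.log x ^ A)
        = (x : ℝ) ^ (-δ) * (12 * C * Real.log x ^ (1 + A + B)) := by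
          rw [pow_add, pow_add]
          ring
      _ ≤ (x : ℝ) ^ (-δ) * (x : ℝ) ^ δ := mul_le_mul_of_nonneg_left hc4 (by positivity)
      _ = 1 := h5
  have hsplit : ∑ Z ∈ (PS W x ∪ PX x).powerset.filter
      (fun Z : Finset ℕ => ∏ p ∈ Z, (p : ℝ) ≤ (x : ℝ) ^ (3 / 25 : ℝ)),
      C ^ Z.card * eQ W s x a Z =
      ∑ Z ∈ (PS W x ∪ PX x).powerset.filter
        (fun Z : Finset ℕ => ∏ p ∈ Z, (p : ℝ) ≤ (x : ℝ) ^ (3 / 25 : ℝ)),
        C ^ Z.card * eB W 0 (x / a) Z +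
      ∑ Z ∈ (PS W x ∪ PX x).powerset.filter
        (fun Z : Finset ℕ => ∏ p ∈ Z, (p : ℝ) ≤ (x : ℝ) ^ (3 / 25 : ℝ)),
        C ^ Z.card * (2 * (s : ℝ) + 4) +
      ∑ Z ∈ (PS W x ∪ PX x).powerset.filter
        (fun Z : Finset ℕ => ∏ p ∈ Z, (p : ℝ) ≤ (x : ℝ) ^ (3 / 25 : ℝ)),
        C ^ Z.card * (if ∃ p ∈ Z, p ∣ a then
          DP (x / a) / (Nat.totient W : ℝ) * ∏ p ∈ Z, fn p else 0) := by
    rw [← Finset.sum_add_distrib, ← Finset.sum_add_distrib]
    refine Finset.sum_congr rfl fun Z _ => ?_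
    unfold eQ
    rw [mul_add, mul_add]
  rw [hsplit]
  linarith

end Pool.Agent.H76.ISE
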