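import Pool.Agent.H76.ISE.Lr3

/-!
# ISE MarkH: the marks satisfy R2, R3

m = a q, a ∈ S, x < m ≤ 2x + s: the number of prime factors (with multiplicity) is that of a plus 1 (`Nat.perm_primeFactorsList_mul` and
`Nat.primeFactorsList_prime`); prime factors: p ∣ a gives p > x^δ (`S2_cof`, `S3_cof`); q > x/a ≥ x^(3/10) ≥ x^δ (Cof: a ≤ x^(7/10));
p^6 > x^(6/5) ≥ 3x ≥ 2x + s ≥ m for large x (δ = 1/5), p^7 > x^(28/25) ≥ 3x ≥ m (δ = 4/25).
-/

set_option autoImplicit false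

namespace Pool.Agent.H76.ISE

open Finset Filter Pool.Agent.H36.IS

private theorem MarkH_growth (e : ℝ) (he : 1 < e) (s : ℕ) : ∀ᶠ x : ℕ in atTop, (2 * x + s : ℝ) < (x : ℝ) ^ e := by
  have h1 : Tendsto (fun x : ℕ => (x : ℝ) ^ (e - 1)) atTop atTop :=
    (tendsto_rpow_atTop (by linarith)).comp tendsto_natCast_atTop_atTop
  filter_upwards [h1.eventually_gt_atTop (2 + s), eventually_ge_atTop 1] with x hx hx1
  have hx0 : (1 : ℝ) ≤ x := by exact_mod_cast hx1
  have h2 : (x : ℝ) ^ e = (x : ℝ) ^ (e - 1) * x := by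
    rw [← Real.rpow_add_one (by linarith)]
    congr 1
    ring
  rw [h2]
  have hs : (0 : ℝ) ≤ s := Nat.cast_nonneg s
  nlinarith

private theorem MarkH_gen (r K : ℕ) (δ : ℝ) (hδ0 : 0 < δ) (hδ : δ ≤ 3 / 10) (hK : 1 < δ * K) (S : ℕ → Finset ℕ)
    (hS : ∀ᶠ x : ℕ in atTop, ∀ a ∈ S x, Cof x δ a ∧ a.primeFactorsList.length ≤ r) (s : ℕ) :
    ∀ᶠ x : ℕ in atTop, ∀ m : ℕ, x < m → m ≤ 2 * x + s → MkS (S x) m →
      m.primeFactorsList.length ≤ r + 1 ∧ ∀ p : ℕ, p.Prime → p ∣ m → m < p ^ K := by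
  filter_upwards [hS, MarkH_growth (δ * K) hK s, eventually_ge_atTop 1] with x hx hgr hx1 m hm hm2 hmk
  obtain ⟨a, haS, had, hq⟩ := hmk
  obtain ⟨⟨ha0, hale, hap⟩, halen⟩ := hx a haS
  have hxR : (1 : ℝ) ≤ x := by exact_mod_cast hx1
  have hmeq : a * (m / a) = m := Nat.mul_div_cancel' had
  set q := m / a with hqdef
  have hq0 : q ≠ 0 := hq.ne_zero
  refine ⟨?_, ?_⟩
  · rw [← hmeq]
    have h1 := (Nat.perm_primeFactorsList_mul ha0.ne' hq0).length_eq
    rw [h1, List.length_append, Nat.primeFactorsList_prime hq, List.length_singleton]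
    omega
  · intro p hp hpm
    have hpx : (x : ℝ) ^ δ < p := by
      rw [← hmeq, hp.dvd_mul] at hpm
      rcases hpm with h | h
      · exact (hap p hp h).1
      · have hpq : p = q := (Nat.prime_dvd_prime_iff_eq hp hq).1 h
        have h1 : (x : ℝ) < (x : ℝ) ^ (7 / 10 : ℝ) * p := by
          have h2 : (x : ℝ) < (a : ℝ) * p := by
            have : x < a * p := by rw [hpq, hmeq]; exact hm
            exact_mod_cast this
          have h3 : (a : ℝ) * p ≤ (x : ℝ) ^ (7 / 10 : ℝ) * p :=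
            mul_le_mul_of_nonneg_right hale (Nat.cast_nonneg p)
          linarith
        have h2 : (x : ℝ) ^ (3 / 10 : ℝ) < p := by
          by_contra hc
          push_neg at hc
          have h3 : (x : ℝ) ^ (7 / 10 : ℝ) * p ≤ (x : ℝ) ^ (7 / 10 : ℝ) * (x : ℝ) ^ (3 / 10 : ℝ) :=
            mul_le_mul_of_nonneg_left hc (by positivity)
          rw [← Real.rpow_add (by linarith)] at h3
          norm_num at h3
          linarith
        exact (Real.rpow_le_rpow_of_exponent_le hxR hδ).trans_lt h2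
    have h4 : ((x : ℝ) ^ δ) ^ K < (p : ℝ) ^ K := by
      have hK0 : K ≠ 0 := by
        rintro rfl
        norm_num at hK
      exact pow_lt_pow_left₀ hpx (by positivity) hK0
    have h5 : ((x : ℝ) ^ δ) ^ K = (x : ℝ) ^ (δ * K) := by
      rw [← Real.rpow_natCast, ← Real.rpow_mul (by linarith)]
    have h6 : (m : ℝ) ≤ 2 * x + s := by exact_mod_cast hm2
    have h7 : (m : ℝ) < (p : ℝ) ^ K := by
      rw [h5] at h4
      linarith
    exact_mod_cast h7

theorem hR2 (s : ℕ) : ∀ᶠ x : ℕ in atTop, ∀ m : ℕ, x < m → m ≤ 2 * x + s → MkS (S2 x (1 / 5)) m → R2 m := by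
  filter_upwards [MarkH_gen 1 6 (1 / 5) (by norm_num) (by norm_num) (by norm_num) (fun x => S2 x (1 / 5))
    (S2_cof (1 / 5) (by norm_num)) s] with x hx m h1 h2 h3
  exact hx m h1 h2 h3

theorem hR3 (s : ℕ) : ∀ᶠ x : ℕ in atTop, ∀ m : ℕ, x < m → m ≤ 2 * x + s → MkS (S3 x (4 / 25)) m → R3 m := by
  filter_upwards [MarkH_gen 2 7 (4 / 25) (by norm_num) (by norm_num) (by norm_num) (fun x => S3 x (4 / 25))
    (S3_cof (4 / 25) (by norm_num)) s] with x hx m h1 h2 h3
  exact hx m h1 h2 h3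

end Pool.Agent.H76.ISE
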