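import Pool.Agent.H76.ISE.Lr2
import Pool.Agent.H36.IS.T2

/-!
# ISE NumA: numerics for the cofactors 1 and p

`L2_val`: `Lr2` with δ = 1/5: 1 + log 4 - ε, log 4 = 2 log 2 ≥ 1.38629.
`g2_val`: `T2_cells` with δ = 1/5, rb = 0.498, J = 40, a j = 1/5 + (0.498 - 0.2) j/40: float value of rb²/2 - ∑ (rb-a_j)² log(a_(j+1)/a_j) is 0.0893907 (claim 0.089).
Rational UPPER bounds for log(b/a) (b > a > 0): log(b/a) ≤ (b² - a²)/(2ab) (= sinh of it; from x ≤ sinh x; or: derivative), or with t = (b-a)/(b+a):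
log(b/a) = log(1+t) - log(1-t) ≤ 2t + 2t³/(3(1-t²)).  The loss of the first one is about (log(b/a))³/6 per cell, fine.  Then a sum of 40 rationals (norm_num with
`Finset.sum_range_succ`, or an integer checker with `decide +kernel`, rounding up to 8 decimals).
-/

set_option autoImplicit false

namespace Pool.Agent.H76.ISE

open Finset Filter Pool.Agent.H36.IS

/-- The division points. -/
private def NumA_a (δ : ℚ) (j : ℕ) : ℚ := δ + (249 / 500 - δ) * j / 40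

/-- The upper bound of the sum. -/
private def NumA_S (δ : ℚ) : ℚ :=
  ∑ j ∈ range 40, (249 / 500 - NumA_a δ j) ^ 2 *
    ((NumA_a δ (j + 1) / NumA_a δ j - (NumA_a δ (j + 1) / NumA_a δ j)⁻¹) / 2)

private theorem NumA_log {t : ℝ} (ht : 1 ≤ t) : Real.log t ≤ (t - t⁻¹) / 2 := by
  rw [← Real.sinh_log (by linarith)]
  exact Real.self_le_sinh_iff.mpr (Real.log_nonneg ht)

private theorem NumA_gen (δ c : ℚ) (hδ : 0 < δ) (hδ1 : δ < 249 / 500)
    (hc : c ≤ (249 / 500 : ℚ) ^ 2 / 2 - NumA_S δ - 1 / 10000) :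
    ∀ᶠ x : ℕ in atTop, (c : ℝ) * tau x ^ 2 ≤ G2 (PZ x (δ : ℝ)) (0.498 * Real.log x) := by
  have hδR : (0 : ℝ) < (δ : ℝ) := by exact_mod_cast hδ
  have hδ1R : (δ : ℝ) < 0.498 := by
    have : (δ : ℝ) < ((249 / 500 : ℚ) : ℝ) := by exact_mod_cast hδ1
    norm_num at this ⊢
    exact this
  have hpos : ∀ j : ℕ, 0 < NumA_a δ j := by
    intro j
    unfold NumA_a
    have h1 : (0 : ℚ) ≤ (249 / 500 - δ) * j / 40 := by
      have : (0 : ℚ) ≤ 249 / 500 - δ := by linarith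
      positivity
    linarith
  have hmono : ∀ j : ℕ, NumA_a δ j < NumA_a δ (j + 1) := by
    intro j
    unfold NumA_a
    push_cast
    have : (0 : ℚ) < 249 / 500 - δ := by linarith
    linarith
  have hT := T2_cells (δ : ℝ) 0.498 (1 / 10000) hδR hδ1R (by norm_num) (by norm_num) 40
    (fun j => ((NumA_a δ j : ℚ) : ℝ)) (by simp [NumA_a]) (by simp [NumA_a]; norm_num)
    (fun j _ => by exact_mod_cast hmono j)
  have hsum : ∑ j ∈ range 40, ((0.498 : ℝ) - ((NumA_a δ j : ℚ) : ℝ)) ^ 2 *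
      Real.log (((NumA_a δ (j + 1) : ℚ) : ℝ) / ((NumA_a δ j : ℚ) : ℝ)) ≤ ((NumA_S δ : ℚ) : ℝ) := by
    unfold NumA_S
    push_cast
    refine sum_le_sum fun j _ => ?_
    have h1 : (0 : ℝ) < ((NumA_a δ j : ℚ) : ℝ) := by exact_mod_cast hpos j
    have h2 : ((NumA_a δ j : ℚ) : ℝ) ≤ ((NumA_a δ (j + 1) : ℚ) : ℝ) := by
      exact_mod_cast (hmono j).le
    have h3 := NumA_log (t := ((NumA_a δ (j + 1) : ℚ) : ℝ) / ((NumA_a δ j : ℚ) : ℝ))
      (by rwa [one_le_div h1])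
    have h4 : (0.498 : ℝ) = 249 / 500 := by norm_num
    rw [h4]
    exact mul_le_mul_of_nonneg_left h3 (by positivity)
  have h2 : (c : ℝ) ≤ (0.498 : ℝ) ^ 2 / 2 - ((NumA_S δ : ℚ) : ℝ) - 1 / 10000 := by
    refine (Rat.cast_le (K := ℝ).mpr hc).trans (le_of_eq ?_)
    push_cast
    norm_num
  filter_upwards [hT] with x hx
  refine le_trans ?_ hx
  rw [mul_comm]
  exact mul_le_mul_of_nonneg_left (by linarith) (by positivity)

theorem L2_val : ∀ᶠ x : ℕ in atTop, (2.386 : ℝ) ≤ Lx (S2 x (1 / 5)) x := by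
  have h := Lr2 (1 / 5) (1 / 10000) (by norm_num) (by norm_num) (by norm_num)
  filter_upwards [h] with x hx
  refine le_trans ?_ hx
  have h4 : Real.log ((1 - 1 / 5) / (1 / 5)) = 2 * Real.log 2 := by
    rw [show ((1 : ℝ) - 1 / 5) / (1 / 5) = 2 ^ 2 by norm_num, Real.log_pow]
    norm_num
  rw [h4]
  have := Real.log_two_gt_d9
  linarith

theorem g2_val : ∀ᶠ x : ℕ in atTop, (0.089 : ℝ) * tau x ^ 2 ≤ G2 (PZ x (1 / 5)) (0.498 * Real.log x) := by
  have h := NumA_gen (1 / 5) (89 / 1000) (by norm_num) (by norm_num) (by decide +kernel)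
  push_cast at h
  have e : (0.089 : ℝ) = 89 / 1000 := by norm_num
  rw [e]
  exact h

end Pool.Agent.H76.ISE
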