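import Pool.Agent.H76.ISE.Lr3

/-!
# ISE NumB: numerics for the cofactors 1, p, p₁p₂

`L3_val`: `Lr3` with δ = 4/25, J = 40, u j = 4/25 + (1/3 - 4/25) j/40 (exact rationals 4/25 + 13 j/3000), ε = 0.001: the float value of the left side
(without ε) is 3.38887 (we claim 3.38, so there is a margin of 0.0078).
Rational lower bounds: log X ≥ 2 (t + t³/3 + t⁵/5 + t⁷/7 + t⁹/9), t = (X-1)/(X+1) (X ≥ 1; `Real.hasSum_log_sub_log_of_abs_lt_one`, partial sums of a series
with nonnegative terms), for the inner logarithms (X up to 4.07) and log X ≥ 2 (X-1)/(X+1) for X = u_(j+1)/u_j; log(21/4) = log(21/16) + 2 log 2 ≥ 1.65822.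
Then a finite computation with rationals (e.g. prove for each j a lower bound with 6 decimals `c_j ≤ log(..) * In3 ..` by one general lemma + norm_num,
or an integer checker run with `decide +kernel` on a list of 40 natural numbers).
-/

set_option autoImplicit false

namespace Pool.Agent.H76.ISE

open Finset Filter Pool.Agent.H36.IS

/-- partial sums of the series of `log ((1 + t) / (1 - t))` -/
private theorem NumB_log (A B : ℝ) (hB : 0 < B) (hAB : B ≤ A) :
    2 * (315 * (A - B) * (A + B) ^ 8 + 105 * (A - B) ^ 3 * (A + B) ^ 6 + 63 * (A - B) ^ 5 * (A + B) ^ 4 +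
      45 * (A - B) ^ 7 * (A + B) ^ 2 + 35 * (A - B) ^ 9) / (315 * (A + B) ^ 9) ≤ Real.log (A / B) := by
  have hA : 0 < A := lt_of_lt_of_le hB hAB
  have hQ : 0 < A + B := by linarith
  have ht0 : 0 ≤ (A - B) / (A + B) := div_nonneg (by linarith) hQ.le
  have ht1 : (A - B) / (A + B) < 1 := by
    rw [div_lt_one hQ]
    linarith
  have h1 := Real.hasSum_log_sub_log_of_abs_lt_one (x := (A - B) / (A + B)) (by
    rw [abs_of_nonneg ht0]
    exact ht1)
  have e1 : 1 + (A - B) / (A + B) = 2 * A / (A + B) := by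
    field_simp
    ring
  have e2 : 1 - (A - B) / (A + B) = 2 * B / (A + B) := by
    field_simp
    ring
  have e3 : Real.log (1 + (A - B) / (A + B)) - Real.log (1 - (A - B) / (A + B)) = Real.log (A / B) := by
    rw [e1, e2, ← Real.log_div (by positivity) (by positivity)]
    congr 1
    field_simp
  rw [e3] at h1
  have h2 := sum_le_hasSum (Finset.range 5) (fun k _ => by positivity) h1
  refine le_trans (le_of_eq ?_) h2
  rw [Finset.sum_range_succ, Finset.sum_range_succ, Finset.sum_range_succ, Finset.sum_range_succ,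
    Finset.sum_range_succ, Finset.sum_range_zero]
  push_cast
  field_simp
  ring

private def NumB_U (j : ℕ) : ℤ := 480 + 13 * j

private def NumB_A (U : ℤ) : ℤ := (2987 - U) * (2987 - 2 * U)

private def NumB_B (U : ℤ) : ℤ := (U + 13) * (3013 - U)

private def NumB_N (A B : ℤ) : ℤ :=
  26 * 3000 * (2 * (315 * (A - B) * (A + B) ^ 8 + 105 * (A - B) ^ 3 * (A + B) ^ 6 +
    63 * (A - B) ^ 5 * (A + B) ^ 4 + 45 * (A - B) ^ 7 * (A + B) ^ 2 + 35 * (A - B) ^ 9))

private def NumB_D (U A B : ℤ) : ℤ := (2 * U + 13) * (3000 - U) * (315 * (A + B) ^ 9)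

private def NumB_c (j : ℕ) : ℤ :=
  10 ^ 8 * NumB_N (NumB_A (NumB_U j)) (NumB_B (NumB_U j)) /
    NumB_D (NumB_U j) (NumB_A (NumB_U j)) (NumB_B (NumB_U j))

private theorem NumB_check : (73000000 : ℤ) ≤ ∑ j ∈ Finset.range 40, NumB_c j := by
  decide +kernel

private theorem NumB_frac (a b c d : ℝ) :
    26 / a * (3000 / b * (c / d)) = 26 * 3000 * c / (a * b * d) := by
  ring

private theorem NumB_term (j : ℕ) (hj : j < 40) :
    (NumB_c j : ℝ) / 10 ^ 8 ≤ Real.log ((4 / 25 + 13 * ((j + 1 : ℕ) : ℝ) / 3000) / (4 / 25 + 13 * (j : ℝ) / 3000)) *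
      In3 (4 / 25 + 13 * (j : ℝ) / 3000) (4 / 25 + 13 * ((j + 1 : ℕ) : ℝ) / 3000) := by
  obtain ⟨U, hU⟩ : ∃ U : ℝ, U = 480 + 13 * (j : ℝ) := ⟨_, rfl⟩
  have hj' : (j : ℝ) ≤ 39 := by exact_mod_cast (by omega : j ≤ 39)
  have hj0 : (0 : ℝ) ≤ j := Nat.cast_nonneg j
  have hU0 : 480 ≤ U := by linarith
  have hU1 : U ≤ 987 := by linarith
  have e1 : (4 / 25 + 13 * (j : ℝ) / 3000) = U / 3000 := by
    rw [hU]
    ring
  have e2 : (4 / 25 + 13 * ((j + 1 : ℕ) : ℝ) / 3000) = (U + 13) / 3000 := by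
    rw [hU]
    push_cast
    ring
  rw [e1, e2]
  -- the first logarithm
  have h1 : 26 / (2 * U + 13) ≤ Real.log ((U + 13) / 3000 / (U / 3000)) := by
    have h2 := Real.le_log_one_add_of_nonneg (x := 13 / U) (by positivity)
    have e3 : (U + 13) / 3000 / (U / 3000) = 1 + 13 / U := by
      field_simp
    have e4 : 26 / (2 * U + 13) = 2 * (13 / U) / (13 / U + 2) := by
      field_simp
      ring
    rw [e3, e4]
    exact h2
  -- the second logarithm
  obtain ⟨A, hA⟩ : ∃ A : ℝ, A = (2987 - U) * (2987 - 2 * U) := ⟨_, rfl⟩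
  obtain ⟨B, hB⟩ : ∃ B : ℝ, B = (U + 13) * (3013 - U) := ⟨_, rfl⟩
  have hB0 : 0 < B := by
    rw [hB]
    apply mul_pos <;> linarith
  have hAB : B ≤ A := by
    rw [hA, hB]
    nlinarith
  have hA0 : 0 < A := lt_of_lt_of_le hB0 hAB
  have h3 : In3 (U / 3000) ((U + 13) / 3000) = 3000 / (3000 - U) * Real.log (A / B) := by
    have g1 : 3000 - U ≠ 0 := by linarith
    have g2 : 3013 - U ≠ 0 := by linarith
    have g3 : U + 13 ≠ 0 := by linarith
    unfold In3
    congr 1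
    · field_simp
    · congr 1
      have e5 : 1 - U / 3000 - (1 - (U + 13) / 3000) / 2 = (3013 - U) / 6000 := by ring
      have e6 : 1 - (U + 13) / 3000 = (2987 - U) / 3000 := by ring
      have e7 : 1 - U / 3000 - (U + 13) / 3000 = (2987 - 2 * U) / 3000 := by ring
      rw [e5, e6, e7, hA, hB, div_eq_div_iff (mul_ne_zero (div_ne_zero g3 (by norm_num))
        (div_ne_zero g2 (by norm_num))) (mul_ne_zero g3 g2)]
      ring
  rw [h3]
  have h4 := NumB_log A B hB0 hAB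
  have h5 : (0 : ℝ) ≤ 2 * (315 * (A - B) * (A + B) ^ 8 + 105 * (A - B) ^ 3 * (A + B) ^ 6 +
      63 * (A - B) ^ 5 * (A + B) ^ 4 + 45 * (A - B) ^ 7 * (A + B) ^ 2 + 35 * (A - B) ^ 9) /
        (315 * (A + B) ^ 9) := by
    have : 0 ≤ A - B := by linarith
    positivity
  have h6 : (0 : ℝ) ≤ 3000 / (3000 - U) := div_nonneg (by norm_num) (by linarith)
  have h7 : (0 : ℝ) ≤ 26 / (2 * U + 13) := by positivity
  have h8 := mul_le_mul h1 (mul_le_mul_of_nonneg_left h4 h6) (mul_nonneg h6 h5) (h7.trans h1)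
  refine le_trans ?_ h8
  -- the rounding
  have k1 : ((NumB_U j : ℤ) : ℝ) = U := by
    rw [hU]
    unfold NumB_U
    push_cast
    ring
  have k2 : ((NumB_A (NumB_U j) : ℤ) : ℝ) = A := by
    rw [hA, ← k1]
    unfold NumB_A
    push_cast
    ring
  have k3 : ((NumB_B (NumB_U j) : ℤ) : ℝ) = B := by
    rw [hB, ← k1]
    unfold NumB_B
    push_cast
    ring
  have k4 : ((NumB_N (NumB_A (NumB_U j)) (NumB_B (NumB_U j)) : ℤ) : ℝ) =
      26 * 3000 * (2 * (315 * (A - B) * (A + B) ^ 8 + 105 * (A - B) ^ 3 * (A + B) ^ 6 +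
        63 * (A - B) ^ 5 * (A + B) ^ 4 + 45 * (A - B) ^ 7 * (A + B) ^ 2 + 35 * (A - B) ^ 9)) := by
    unfold NumB_N
    push_cast
    rw [k2, k3]
    ring
  have k5 : ((NumB_D (NumB_U j) (NumB_A (NumB_U j)) (NumB_B (NumB_U j)) : ℤ) : ℝ) =
      (2 * U + 13) * (3000 - U) * (315 * (A + B) ^ 9) := by
    unfold NumB_D
    push_cast
    rw [k1, k2, k3]
  have hDpos : (0 : ℝ) < (2 * U + 13) * (3000 - U) * (315 * (A + B) ^ 9) := by
    have : 0 < 3000 - U := by linarith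
    positivity
  have hDpos' : 0 < NumB_D (NumB_U j) (NumB_A (NumB_U j)) (NumB_B (NumB_U j)) := by
    have := hDpos
    rw [← k5] at this
    exact_mod_cast this
  have k6 : NumB_c j * NumB_D (NumB_U j) (NumB_A (NumB_U j)) (NumB_B (NumB_U j)) ≤
      10 ^ 8 * NumB_N (NumB_A (NumB_U j)) (NumB_B (NumB_U j)) := by
    unfold NumB_c
    exact Int.ediv_mul_le _ hDpos'.ne'
  have k7 : (NumB_c j : ℝ) * ((2 * U + 13) * (3000 - U) * (315 * (A + B) ^ 9)) ≤
      10 ^ 8 * (26 * 3000 * (2 * (315 * (A - B) * (A + B) ^ 8 + 105 * (A - B) ^ 3 * (A + B) ^ 6 +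
        63 * (A - B) ^ 5 * (A + B) ^ 4 + 45 * (A - B) ^ 7 * (A + B) ^ 2 + 35 * (A - B) ^ 9))) := by
    rw [← k4, ← k5]
    exact_mod_cast k6
  have k8 : 26 / (2 * U + 13) * (3000 / (3000 - U) * (2 * (315 * (A - B) * (A + B) ^ 8 +
      105 * (A - B) ^ 3 * (A + B) ^ 6 + 63 * (A - B) ^ 5 * (A + B) ^ 4 + 45 * (A - B) ^ 7 * (A + B) ^ 2 +
        35 * (A - B) ^ 9) / (315 * (A + B) ^ 9))) =
      26 * 3000 * (2 * (315 * (A - B) * (A + B) ^ 8 + 105 * (A - B) ^ 3 * (A + B) ^ 6 +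
        63 * (A - B) ^ 5 * (A + B) ^ 4 + 45 * (A - B) ^ 7 * (A + B) ^ 2 + 35 * (A - B) ^ 9)) /
        ((2 * U + 13) * (3000 - U) * (315 * (A + B) ^ 9)) := by
    exact NumB_frac _ _ _ _
  rw [k8, div_le_div_iff₀ (by norm_num) hDpos]
  linarith

theorem L3_val : ∀ᶠ x : ℕ in atTop, (3.38 : ℝ) ≤ Lx (S3 x (4 / 25)) x := by
  have h0 := Lr3 (4 / 25) 0.001 (by norm_num) (by norm_num) (by norm_num) 40
    (fun j : ℕ => 4 / 25 + 13 * (j : ℝ) / 3000) (by norm_num) (by norm_num) (by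
      intro j _
      push_cast
      linarith)
  have h1 : ((73000000 : ℤ) : ℝ) / 10 ^ 8 ≤ ∑ j ∈ Finset.range 40,
      Real.log ((4 / 25 + 13 * ((j + 1 : ℕ) : ℝ) / 3000) / (4 / 25 + 13 * (j : ℝ) / 3000)) *
        In3 (4 / 25 + 13 * (j : ℝ) / 3000) (4 / 25 + 13 * ((j + 1 : ℕ) : ℝ) / 3000) := by
    refine le_trans ?_ (Finset.sum_le_sum fun j hj => NumB_term j (Finset.mem_range.1 hj))
    rw [← Finset.sum_div]
    apply div_le_div_of_nonneg_right _ (by norm_num)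
    exact_mod_cast NumB_check
  have h2 : (1.65822 : ℝ) ≤ Real.log ((1 - 4 / 25) / (4 / 25)) := by
    have e1 : ((1 - 4 / 25) / (4 / 25) : ℝ) = (21 / 16) * 2 ^ 2 := by norm_num
    rw [e1, Real.log_mul (by norm_num) (by norm_num), Real.log_pow]
    have h3 := NumB_log 21 16 (by norm_num) (by norm_num)
    have h4 := Real.log_two_gt_d9
    have h5 : (0.27193 : ℝ) ≤ 2 * (315 * (21 - 16) * (21 + 16) ^ 8 + 105 * (21 - 16) ^ 3 * (21 + 16) ^ 6 +
      63 * (21 - 16) ^ 5 * (21 + 16) ^ 4 + 45 * (21 - 16) ^ 7 * (21 + 16) ^ 2 + 35 * (21 - 16) ^ 9) /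
        (315 * (21 + 16) ^ 9) := by norm_num
    push_cast
    linarith
  filter_upwards [h0] with x hx
  refine le_trans ?_ hx
  have h3 : (0.73 : ℝ) ≤ ((73000000 : ℤ) : ℝ) / 10 ^ 8 := by norm_num
  have h4 := h3.trans h1
  linarith

end Pool.Agent.H76.ISE
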