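import Pool.Agent.H76.ISE.Defs
import Pool.Agent.H36.IS.T2

/-!
# ISE NumC: numerics for G2 at δ = 4/25

`g3_val`: `T2_cells` with δ = 4/25, rb = 0.498, J = 40, a j = 4/25 + (0.498 - 0.16) j/40: float value of rb²/2 - ∑ (rb-a_j)² log(a_(j+1)/a_j) is 0.0659334 (claim 0.0658).
Rational UPPER bounds for log(b/a) (b > a > 0): log(b/a) ≤ (b² - a²)/(2ab) (from x ≤ sinh x), loss about (log(b/a))³/6 per cell: CHECK the margin (first
cells: log(b/a) = 0.0514, loss 2.3e-5 times (0.338)²: fine), or with t = (b-a)/(b+a): log(b/a) ≤ 2t + 2t³/(3(1-t²)).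
Then a sum of 40 rationals (norm_num with `Finset.sum_range_succ`, or an integer checker with `decide +kernel`, rounding up to 8 decimals).
-/

set_option autoImplicit false

namespace Pool.Agent.H76.ISE

open Finset Filter Pool.Agent.H36.IS

/-- the cell end points: `4/25 + 0.338 j / 40` -/
private noncomputable def NumC_a (j : ℕ) : ℝ := (3200 + 169 * (j : ℝ)) / 20000

private def NumC_num (j : ℕ) : ℕ := 169 ^ 3 * (40 - j) ^ 2 * (6569 + 338 * j)

private def NumC_den (j : ℕ) : ℕ := 20000 ^ 2 * 2 * (3200 + 169 * j) * (3369 + 169 * j)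

private def NumC_c (j : ℕ) : ℕ := NumC_num j * 10 ^ 9 / NumC_den j + 1

private theorem NumC_sum : ∑ j ∈ range 40, NumC_c j = 58083201 := by
  decide +kernel

private theorem NumC_log {x : ℝ} (hx : 1 ≤ x) : Real.log x ≤ (x - x⁻¹) / 2 := by
  have h0 : 0 < x := by linarith
  rw [← Real.sinh_log h0]
  exact Real.self_le_sinh_iff.2 (Real.log_nonneg hx)

private theorem NumC_term {j : ℕ} (hj : j < 40) :
    (0.498 - NumC_a j) ^ 2 * Real.log (NumC_a (j + 1) / NumC_a j) ≤ (NumC_c j : ℝ) / 10 ^ 9 := by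
  have hj0 : (0 : ℝ) ≤ (j : ℝ) := Nat.cast_nonneg j
  have ha : (0 : ℝ) < 3200 + 169 * (j : ℝ) := by positivity
  have hb : (0 : ℝ) < 3369 + 169 * (j : ℝ) := by positivity
  have hq : NumC_a (j + 1) / NumC_a j = (3369 + 169 * (j : ℝ)) / (3200 + 169 * (j : ℝ)) := by
    unfold NumC_a
    push_cast
    rw [div_div_div_cancel_right₀ (by norm_num)]
    congr 1
    ring
  have h1 : Real.log (NumC_a (j + 1) / NumC_a j) ≤
      169 * (6569 + 338 * (j : ℝ)) / (2 * (3200 + 169 * (j : ℝ)) * (3369 + 169 * (j : ℝ))) := by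
    rw [hq]
    refine (NumC_log ?_).trans (le_of_eq ?_)
    · rw [le_div_iff₀ ha]
      linarith
    · field_simp
      ring
  have hden : (0 : ℝ) < (NumC_den j : ℝ) := by
    have : 0 < NumC_den j := by unfold NumC_den; positivity
    exact_mod_cast this
  have h2 : (0.498 - NumC_a j) ^ 2 * Real.log (NumC_a (j + 1) / NumC_a j) ≤
      (NumC_num j : ℝ) / (NumC_den j : ℝ) := by
    refine (mul_le_mul_of_nonneg_left h1 (sq_nonneg _)).trans (le_of_eq ?_)
    have h40 : ((40 - j : ℕ) : ℝ) = 40 - (j : ℝ) := by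
      rw [Nat.cast_sub hj.le]
      norm_num
    unfold NumC_num NumC_den NumC_a
    push_cast
    rw [h40]
    field_simp
    ring
  refine h2.trans ?_
  rw [div_le_div_iff₀ hden (by positivity)]
  have h3 : NumC_num j * 10 ^ 9 < NumC_den j * (NumC_num j * 10 ^ 9 / NumC_den j + 1) :=
    Nat.lt_mul_div_succ _ (by unfold NumC_den; positivity)
  have h4 : NumC_num j * 10 ^ 9 ≤ NumC_c j * NumC_den j := by
    unfold NumC_c
    rw [mul_comm (_ + 1)]
    exact h3.le
  exact_mod_cast h4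

theorem g3_val : ∀ᶠ x : ℕ in atTop, (0.0658 : ℝ) * tau x ^ 2 ≤ G2 (PZ x (4 / 25)) (0.498 * Real.log x) := by
  have h := T2_cells (4 / 25) 0.498 0.0001 (by norm_num) (by norm_num) (by norm_num) (by norm_num) 40
    NumC_a (by unfold NumC_a; norm_num) (by unfold NumC_a; norm_num) (fun j _ => by
      unfold NumC_a
      push_cast
      linarith)
  filter_upwards [h] with x hx
  refine le_trans ?_ hx
  rw [mul_comm]
  refine mul_le_mul_of_nonneg_left ?_ (sq_nonneg _)
  have h1 : ∑ j ∈ range 40, (0.498 - NumC_a j) ^ 2 * Real.log (NumC_a (j + 1) / NumC_a j) ≤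
      ∑ j ∈ range 40, (NumC_c j : ℝ) / 10 ^ 9 :=
    sum_le_sum fun j hj => NumC_term (mem_range.1 hj)
  have h2 : ∑ j ∈ range 40, (NumC_c j : ℝ) / 10 ^ 9 = 58083201 / 10 ^ 9 := by
    rw [← sum_div]
    congr 1
    exact_mod_cast NumC_sum
  rw [h2] at h1
  norm_num at h1 ⊢
  linarith

end Pool.Agent.H76.ISE
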