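import Pool.Agent.H76.ISE.MarkG
import Pool.Agent.H76.ISE.MarkH
import Pool.Agent.H76.ISE.NumA
import Pool.Agent.H76.ISE.NumB
import Pool.Agent.H76.ISE.NumC

/-!
# ISE MarkE: the data of the exact marks

`markE2`: L = 2.386, g = 0.089: L² g = 0.50667.. ≥ 0.506; `markE3`: L = 3.38, g = 0.0658: 0.75172.. ≥ 0.7515.
-/

set_option autoImplicit false

namespace Pool.Agent.H76.ISE

open Finset Filter Pool.Agent.H36.IS

theorem MarkData_mono {R : ℕ → Prop} {δ θ c c₁ : ℝ} (h : MarkData R δ θ c) (hc : c₁ ≤ c) : MarkData R δ θ c₁ := by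
  obtain ⟨mk, l, q1, q2, c', C, h1, h2, h3, h4, h5⟩ := h
  refine ⟨mk, l, q1, q2, c', C, h1, h2, h3, ?_, h5⟩
  filter_upwards [h4] with x hx
  obtain ⟨a1, a2, a3, a4, a5⟩ := hx
  exact ⟨a1, a2, a3, a4, (mul_le_mul_of_nonneg_right hc a4).trans a5⟩

theorem markE2 : MarkData R2 (1 / 5) 0.0001 0.506 := by
  refine MarkData_mono (markE_gen R2 (1 / 5) 0.0001 2.386 0.089 (by norm_num) (by norm_num) (by norm_num) (by norm_num)
    (fun x => S2 x (1 / 5)) ?_ hR2 (by norm_num) L2_val (by norm_num) g2_val) (by norm_num)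
  filter_upwards [S2_cof (1 / 5) (by norm_num)] with x hx a ha
  exact (hx a ha).1

theorem markE3 : MarkData R3 (4 / 25) 0.0001 0.7515 := by
  refine MarkData_mono (markE_gen R3 (4 / 25) 0.0001 3.38 0.0658 (by norm_num) (by norm_num) (by norm_num) (by norm_num)
    (fun x => S3 x (4 / 25)) ?_ hR3 (by norm_num) L3_val (by norm_num) g3_val) (by norm_num)
  filter_upwards [S3_cof (4 / 25) (by norm_num)] with x hx a ha
  exact (hx a ha).1

end Pool.Agent.H76.ISE
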