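import Pool.Agent.H36.IS.ALim
import Pool.Agent.H36.IS.ToStep
import Pool.Agent.H36.IS.ChebStep
import Pool.Agent.H36.IS.MarkP
import Pool.Agent.H76.ISE.MarkE

/-!
# ISE Fin: the main theorems (exact marks)
-/

set_option autoImplicit false

namespace Pool.Agent.H76.ISE

open Pool.Agent.H36.IS

theorem stepP' : ∃ κ : ℕ → ℕ, Step Nat.Prime 0.2495 κ := by
  obtain ⟨κ, h⟩ := cheb_step Nat.Prime (1 / 4) 0.0001 0.2497 0.2495 (by norm_num) (by norm_num) (by norm_num)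
    (by norm_num) (by norm_num) markP (by norm_num)
  exact ⟨κ, toStep h⟩

theorem stepE2 : ∃ κ : ℕ → ℕ, Step R2 0.505 κ := by
  obtain ⟨κ, h⟩ := cheb_step R2 (1 / 5) 0.0001 0.506 0.505 (by norm_num) (by norm_num) (by norm_num)
    (by norm_num) (by norm_num) markE2 (by norm_num)
  exact ⟨κ, toStep h⟩

theorem stepE3 : ∃ κ : ℕ → ℕ, Step R3 0.751 κ := by
  obtain ⟨κ, h⟩ := cheb_step R3 (4 / 25) 0.0001 0.7515 0.751 (by norm_num) (by norm_num) (by norm_num)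
    (by norm_num) (by norm_num) markE3 (by norm_num)
  exact ⟨κ, toStep h⟩

theorem main_prime3 : ∃ b c : ℕ → ℕ, StrictMono b ∧ StrictMono c ∧
    (∀ i j, i ≤ j → (b i + c j).Prime) ∧ (∀ i j, j < i → R3 (b i + c j)) := by
  obtain ⟨κ1, h1⟩ := stepP'
  obtain ⟨κ2, h2⟩ := stepE3
  exact two_parity Nat.Prime R3 _ _ κ1 κ2 h1 h2 (by norm_num)

theorem main_two : ∃ b c : ℕ → ℕ, StrictMono b ∧ StrictMono c ∧ ∀ i j, R2 (b i + c j) := by
  obtain ⟨κ1, h1⟩ := stepE2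
  obtain ⟨b, c, hb, hc, h2, h3⟩ := two_parity R2 R2 _ _ κ1 κ1 h1 h1 (by norm_num)
  refine ⟨b, c, hb, hc, fun i j => ?_⟩
  rcases le_or_gt i j with h | h
  · exact h2 i j h
  · exact h3 i j h

/-- infinite sets `B`, `C` such that every sum is a prime or a product of two primes, both `> (b + c)^(1/6)` -/
theorem main_sets : ∃ B C : Set ℕ, B.Infinite ∧ C.Infinite ∧ ∀ b ∈ B, ∀ c ∈ C, R2 (b + c) := by
  obtain ⟨b, c, hb, hc, h⟩ := main_two
  refine ⟨Set.range b, Set.range c, Set.infinite_range_of_injective hb.injective,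
    Set.infinite_range_of_injective hc.injective, ?_⟩
  rintro _ ⟨i, rfl⟩ _ ⟨j, rfl⟩
  exact h i j

end Pool.Agent.H76.ISE
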