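import Pool.Agent.H76.ISE.MerL
import Pool.Agent.H76.ISE.DPa

/-!
# ISE Lr2: cofactors 1 and p

S2 x δ = {1} ∪ primes in (x^δ, x^(1/2)]: Cof: p p ≤ x since p ≤ x^(1/2); p ≤ x^(7/10).  (a = 1: 1 ≤ x^(7/10).)
Lx (S2 x δ) x = DP x log x/x + ∑_{p ∈ Cell x δ (1/2)} DP (x/p) log x/x ≥ (1-ε')(1 + ∑ (1/p) 1/(1 - log p/log x)) (`DP_cof`) and `mert_int` with
c = 1, α = δ, β = 1/2: (1/c) log(β (c-α)/(α (c-β))) = log((1-δ)/δ).
-/

set_option autoImplicit false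

namespace Pool.Agent.H76.ISE

open Finset Filter Pool.Agent.H36.IS

theorem S2_cof (δ : ℝ) (hδ : 0 < δ) : ∀ᶠ x : ℕ in atTop, ∀ a ∈ S2 x δ, Cof x δ a ∧ a.primeFactorsList.length ≤ 1 := by
  filter_upwards [eventually_ge_atTop 1] with x hx a ha
  have hx1 : (1 : ℝ) ≤ x := by exact_mod_cast hx
  have hx0 : (0 : ℝ) ≤ x := by linarith
  unfold S2 at ha
  rw [mem_insert] at ha
  rcases ha with rfl | ha
  · refine ⟨⟨one_pos, ?_, ?_⟩, ?_⟩
    · rw [Nat.cast_one]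
      exact Real.one_le_rpow hx1 (by norm_num)
    · intro p hp hp1
      exact absurd (Nat.dvd_one.mp hp1) hp.one_lt.ne'
    · simp
  · unfold Cell at ha
    rw [mem_filter] at ha
    obtain ⟨_, hp, hδp, hp2⟩ := ha
    refine ⟨⟨hp.pos, hp2.trans (Real.rpow_le_rpow_of_exponent_le hx1 (by norm_num)), ?_⟩, ?_⟩
    · intro q hq hqa
      have hqa' : q = a := (Nat.prime_dvd_prime_iff_eq hq hp).mp hqa
      subst hqa'
      refine ⟨hδp, ?_⟩
      have h1 : (q : ℝ) * q ≤ (x : ℝ) ^ (1 / 2 : ℝ) * (x : ℝ) ^ (1 / 2 : ℝ) :=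
        mul_le_mul hp2 hp2 (Nat.cast_nonneg q) (Real.rpow_nonneg hx0 _)
      have h2 : (x : ℝ) ^ (1 / 2 : ℝ) * (x : ℝ) ^ (1 / 2 : ℝ) = x := by
        rw [← Real.rpow_add (by linarith)]
        norm_num
      rw [h2] at h1
      exact_mod_cast h1
    · rw [Nat.primeFactorsList_prime hp]
      simp

theorem Lr2 (δ ε : ℝ) (hδ : 0 < δ) (hδ1 : δ ≤ 1 / 2) (hε : 0 < ε) : ∀ᶠ x : ℕ in atTop,
    1 + Real.log ((1 - δ) / δ) - ε ≤ Lx (S2 x δ) x := by
  set K : ℝ := Real.log ((1 - δ) / δ) with hK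
  have hK0 : 0 ≤ K := by
    apply Real.log_nonneg
    rw [le_div_iff₀ hδ]
    linarith
  set ε' : ℝ := min (1 / 2) (ε / (2 * (1 + K))) with hε'
  have hε'0 : 0 < ε' := lt_min (by norm_num) (by positivity)
  have hε'1 : ε' ≤ 1 / 2 := min_le_left _ _
  have hε'2 : ε' * (1 + K) ≤ ε / 2 := by
    have h1 : ε' ≤ ε / (2 * (1 + K)) := min_le_right _ _
    rw [le_div_iff₀ (by positivity)] at h1
    linarith
  filter_upwards [S2_cof δ hδ, DP_cof ε' hε'0, mert_int 1 δ (1 / 2) (ε / 2) hδ hδ1 (by norm_num)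
    (by norm_num) (by linarith), eventually_ge_atTop 1] with x h1 h2 h3 hx
  have hx1 : (1 : ℝ) ≤ x := by exact_mod_cast hx
  have h4 : ∀ a ∈ S2 x δ, (1 - ε') * (1 / (a : ℝ) * (1 / (1 - Real.log a / Real.log x))) ≤
      DP (x / a) * Real.log x / x := fun a ha => h2 a (h1 a ha).1.1 (h1 a ha).1.2.1
  have h5 : Lx (S2 x δ) x = ∑ a ∈ S2 x δ, DP (x / a) * Real.log x / x := by
    unfold Lx
    rw [Finset.sum_mul, Finset.sum_div]
  have h6 : (1 - ε') * ∑ a ∈ S2 x δ, 1 / (a : ℝ) * (1 / (1 - Real.log a / Real.log x)) ≤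
      Lx (S2 x δ) x := by
    rw [h5, Finset.mul_sum]
    exact Finset.sum_le_sum h4
  have h7 : (1 : ℕ) ∉ Cell x δ (1 / 2) := by
    unfold Cell
    rw [mem_filter]
    rintro ⟨_, hp, _⟩
    exact Nat.not_prime_one hp
  have h8 : ∑ a ∈ S2 x δ, 1 / (a : ℝ) * (1 / (1 - Real.log a / Real.log x)) =
      1 + ∑ p ∈ Cell x δ (1 / 2), 1 / (p : ℝ) * (1 / (1 - Real.log p / Real.log x)) := by
    unfold S2
    rw [Finset.sum_insert h7, Nat.cast_one, Real.log_one]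
    norm_num
  have h9 : Real.log (1 / 2 * (1 - δ) / (δ * (1 - 1 / 2))) = K := by
    rw [hK]
    congr 1
    field_simp
    ring
  rw [h9, div_one, one_mul] at h3
  rw [h8] at h6
  have h10 : (1 - ε') * (1 + K - ε / 2) ≤
      (1 - ε') * (1 + ∑ p ∈ Cell x δ (1 / 2), 1 / (p : ℝ) *
        (1 / (1 - Real.log p / Real.log x))) :=
    mul_le_mul_of_nonneg_left (by linarith) (by linarith)
  have h11 : 0 ≤ ε' * (ε / 2) := by positivity
  have h12 : (1 - ε') * (1 + K - ε / 2) = 1 + K - ε / 2 - ε' * (1 + K) + ε' * (ε / 2) := by ring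
  linarith

end Pool.Agent.H76.ISE
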