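import Pool.Agent.H76.ISE.Lr2

/-!
# ISE Lr3: cofactors 1, p and p₁ p₂

`S3_cof`: a = p₁ p₂ with x^δ < p₁ < p₂, p₁ p₂² ≤ x: primes dividing a are p₁, p₂ > x^δ, p₂ a = p₁ p₂² ≤ x; a³ = p₁³ p₂³ ≤ p₁² p₂⁴ = (p₁p₂²)² ≤ x² (p₁ ≤ p₂), so
a ≤ x^(2/3) ≤ x^(7/10); two prime factors.
`Lr3`: Lx (S3) = Lx (S2) + ∑_{(p₁,p₂) ∈ Pr3} DP(x/(p₁p₂)) log x/x: the image is disjoint from S2 (number of prime factors) and (p₁,p₂) ↦ p₁p₂ is injective on
Pr3 (p₁ < p₂ primes, unique factorisation).  By `DP_cof` each term is ≥ (1-ε')(1/(p₁p₂)) 1/(1 - log p₁/log x - log p₂/log x).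
For p₁ ∈ Cell x u_j u_(j+1) and p₂ ∈ Cell x u_(j+1) ((1-u_(j+1))/2): p₁ ≤ x^(u_(j+1)) < p₂, p₁ p₂² ≤ x^(u_(j+1) + 1 - u_(j+1)) = x, so (p₁,p₂) ∈ Pr3 (u_j ≥ δ), and
1/(1 - log p₁/log x - log p₂/log x) ≥ 1/(1 - u_j - log p₂/log x) > 0.  Sum over p₂: `mert_int` with c = 1 - u_j, α = u_(j+1), β = (1-u_(j+1))/2
(α ≤ β since u_(j+1) ≤ 1/3; β < c), c - β = (1 - 2u_j + u_(j+1))/2 ; sum over p₁: `mert_low`.  The cells are disjoint for different j.
The inner value In j is ≥ 0.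
-/

set_option autoImplicit false

namespace Pool.Agent.H76.ISE

open Finset Filter Pool.Agent.H36.IS

/-- the inner integral for the cell `(u, v]` -/
noncomputable def In3 (u v : ℝ) : ℝ :=
  (1 / (1 - u)) * Real.log ((1 - v) / 2 * (1 - u - v) / (v * (1 - u - (1 - v) / 2)))

private theorem Lr3_log_lo {x p : ℕ} {u : ℝ} (hx : 1 < x) (h : (x : ℝ) ^ u < p) :
    u < Real.log p / Real.log x := by
  have hx0 : (0 : ℝ) < x := by exact_mod_cast (by omega : 0 < x)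
  have hl : 0 < Real.log x := Real.log_pos (by exact_mod_cast hx)
  rw [lt_div_iff₀ hl, ← Real.log_rpow hx0]
  exact Real.log_lt_log (Real.rpow_pos_of_pos hx0 u) h

private theorem Lr3_log_hi {x p : ℕ} {v : ℝ} (hx : 1 < x) (hp : 0 < p) (h : (p : ℝ) ≤ (x : ℝ) ^ v) :
    Real.log p / Real.log x ≤ v := by
  have hx0 : (0 : ℝ) < x := by exact_mod_cast (by omega : 0 < x)
  have hl : 0 < Real.log x := Real.log_pos (by exact_mod_cast hx)
  rw [div_le_iff₀ hl, ← Real.log_rpow hx0]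
  exact Real.log_le_log (by exact_mod_cast hp) h

private theorem Lr3_mem {x p : ℕ} {α β : ℝ} :
    p ∈ Cell x α β ↔ p < x + 1 ∧ p.Prime ∧ (x : ℝ) ^ α < p ∧ (p : ℝ) ≤ (x : ℝ) ^ β := by
  unfold Cell
  rw [mem_filter, mem_range]

private theorem Lr3_memPr {x : ℕ} {δ : ℝ} {pq : ℕ × ℕ} :
    pq ∈ Pr3 x δ ↔ (pq.1 ∈ Cell x δ 1 ∧ pq.2 ∈ Cell x δ 1) ∧ pq.1 < pq.2 ∧ pq.1 * pq.2 ^ 2 ≤ x := by
  unfold Pr3
  rw [mem_filter, mem_product]

private theorem Lr3_len {p q : ℕ} (hp : p.Prime) (hq : q.Prime) :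
    (p * q).primeFactorsList.length = 2 := by
  rw [(Nat.perm_primeFactorsList_mul hp.ne_zero hq.ne_zero).length_eq, List.length_append,
    Nat.primeFactorsList_prime hp, Nat.primeFactorsList_prime hq]
  rfl

private theorem Lr3_small {x p q : ℕ} (hx : 1 ≤ x) (hpq : p ≤ q) (h : p * q ^ 2 ≤ x) :
    ((p * q : ℕ) : ℝ) ≤ (x : ℝ) ^ (7 / 10 : ℝ) := by
  have h1 : (p * q) ^ 3 ≤ x ^ 2 := by
    calc (p * q) ^ 3 = p ^ 2 * q ^ 3 * p := by ring
      _ ≤ p ^ 2 * q ^ 3 * q := Nat.mul_le_mul_left _ hpq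
      _ = (p * q ^ 2) ^ 2 := by ring
      _ ≤ x ^ 2 := Nat.pow_le_pow_left h 2
  have hx1 : (1 : ℝ) ≤ x := by exact_mod_cast hx
  have hx0 : (0 : ℝ) ≤ x := by linarith
  have h2 : (((p * q : ℕ) : ℝ)) ^ 3 ≤ (x : ℝ) ^ 2 := by exact_mod_cast h1
  have h0 : (0 : ℝ) ≤ ((p * q : ℕ) : ℝ) := Nat.cast_nonneg _
  have h3 : (x : ℝ) ^ 2 ≤ ((x : ℝ) ^ (7 / 10 : ℝ)) ^ 3 := by
    rw [← Real.rpow_natCast ((x : ℝ) ^ (7 / 10 : ℝ)) 3, ← Real.rpow_mul hx0,
      ← Real.rpow_natCast (x : ℝ) 2]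
    exact Real.rpow_le_rpow_of_exponent_le hx1 (by norm_num)
  exact le_of_pow_le_pow_left₀ (by norm_num) (Real.rpow_nonneg hx0 _) (h2.trans h3)

private theorem Lr3_cofpair {x p q : ℕ} {δ : ℝ} (hx : 1 ≤ x) (h : (p, q) ∈ Pr3 x δ) :
    Cof x δ (p * q) := by
  rw [Lr3_memPr] at h
  obtain ⟨⟨hp, hq⟩, hlt, hle⟩ := h
  rw [Lr3_mem] at hp hq
  simp only at hp hq hlt hle
  obtain ⟨-, pp, plo, -⟩ := hp
  obtain ⟨-, qp, qlo, -⟩ := hq
  refine ⟨Nat.mul_pos pp.pos qp.pos, Lr3_small hx hlt.le hle, fun r hr hd => ?_⟩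
  rcases (Nat.Prime.dvd_mul hr).1 hd with h1 | h1
  · have : r = p := (Nat.prime_dvd_prime_iff_eq hr pp).1 h1
    subst this
    refine ⟨plo, le_trans ?_ hle⟩
    calc r * (r * q) ≤ r * (q * q) := Nat.mul_le_mul_left _ (Nat.mul_le_mul_right _ hlt.le)
      _ = r * q ^ 2 := by ring
  · have : r = q := (Nat.prime_dvd_prime_iff_eq hr qp).1 h1
    subst this
    refine ⟨qlo, le_of_eq_of_le ?_ hle⟩
    ring

theorem S3_cof (δ : ℝ) (hδ : 0 < δ) : ∀ᶠ x : ℕ in atTop, ∀ a ∈ S3 x δ, Cof x δ a ∧ a.primeFactorsList.length ≤ 2 := by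
  filter_upwards [S2_cof δ hδ, eventually_ge_atTop 1] with x h2 hx a ha
  unfold S3 at ha
  rw [mem_union] at ha
  rcases ha with ha | ha
  · exact ⟨(h2 a ha).1, (h2 a ha).2.trans (by norm_num)⟩
  · rw [mem_image] at ha
    obtain ⟨⟨p, q⟩, hpq, rfl⟩ := ha
    refine ⟨Lr3_cofpair hx hpq, ?_⟩
    rw [Lr3_memPr] at hpq
    exact (Lr3_len (Lr3_mem.1 hpq.1.1).2.1 (Lr3_mem.1 hpq.1.2).2.1).le

private theorem Lr3_inj (x : ℕ) (δ : ℝ) :
    Set.InjOn (fun pq : ℕ × ℕ => pq.1 * pq.2) (Pr3 x δ : Set (ℕ × ℕ)) := by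
  rintro ⟨p, q⟩ h ⟨p', q'⟩ h' e
  rw [mem_coe, Lr3_memPr] at h h'
  simp only at h h' e
  have pp := (Lr3_mem.1 h.1.1).2.1
  have pq := (Lr3_mem.1 h.1.2).2.1
  have pp' := (Lr3_mem.1 h'.1.1).2.1
  have pq' := (Lr3_mem.1 h'.1.2).2.1
  have hlt := h.2.1
  have hlt' := h'.2.1
  have hd : p ∣ p' * q' := e ▸ Dvd.intro q rfl
  rcases (Nat.Prime.dvd_mul pp).1 hd with h1 | h1
  · have e1 : p = p' := (Nat.prime_dvd_prime_iff_eq pp pp').1 h1
    subst e1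
    have e2 : q = q' := Nat.eq_of_mul_eq_mul_left pp.pos e
    rw [e2]
  · exfalso
    have e1 : p = q' := (Nat.prime_dvd_prime_iff_eq pp pq').1 h1
    subst e1
    have e2 : q = p' := by
      rw [Nat.mul_comm p' p] at e
      exact Nat.eq_of_mul_eq_mul_left pp.pos e
    omega

private theorem Lr3_monou {J : ℕ} {u : ℕ → ℝ} (hmono : ∀ j < J, u j < u (j + 1)) :
    ∀ i j, i ≤ j → j ≤ J → u i ≤ u j := by
  intro i j hij
  induction j, hij using Nat.le_induction with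
  | base => intro _; exact le_rfl
  | succ k hk ih =>
    intro hkJ
    exact (ih (by omega)).trans (hmono k (by omega)).le

/-- the summand -/
private noncomputable def Lr3_F (x : ℕ) (pq : ℕ × ℕ) : ℝ :=
  1 / ((pq.1 * pq.2 : ℕ) : ℝ) * (1 / (1 - Real.log ((pq.1 * pq.2 : ℕ) : ℝ) / Real.log x))

private theorem Lr3_F_nonneg {x : ℕ} {δ : ℝ} (hx : 1 < x) {pq : ℕ × ℕ} (h : pq ∈ Pr3 x δ) :
    0 ≤ Lr3_F x pq := by
  obtain ⟨h0, h1, -⟩ := Lr3_cofpair (p := pq.1) (q := pq.2) hx.le h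
  have h2 := Lr3_log_hi hx h0 h1
  unfold Lr3_F
  have h3 : 0 < 1 - Real.log ((pq.1 * pq.2 : ℕ) : ℝ) / Real.log x := by linarith
  positivity

private theorem Lr3_sub {x p q : ℕ} {δ u v : ℝ} (hx : 1 < x) (h1 : δ ≤ u) (h2 : u ≤ v)
    (hp : p ∈ Cell x u v) (hq : q ∈ Cell x v ((1 - v) / 2)) : (p, q) ∈ Pr3 x δ := by
  rw [Lr3_mem] at hp hq
  obtain ⟨px, pp, plo, phi⟩ := hp
  obtain ⟨qx, qp, qlo, qhi⟩ := hq
  have hx1 : (1 : ℝ) ≤ x := by exact_mod_cast hx.le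
  have hx0 : (0 : ℝ) < x := by linarith
  have hcell : ∀ r : ℕ, r < x + 1 → r.Prime → (x : ℝ) ^ u < r → r ∈ Cell x δ 1 := by
    intro r hr hrp hlo
    rw [Lr3_mem]
    refine ⟨hr, hrp, (Real.rpow_le_rpow_of_exponent_le hx1 h1).trans_lt hlo, ?_⟩
    rw [Real.rpow_one]
    exact_mod_cast Nat.lt_succ_iff.1 hr
  rw [Lr3_memPr]
  refine ⟨⟨hcell p px pp plo, hcell q qx qp
    ((Real.rpow_le_rpow_of_exponent_le hx1 h2).trans_lt qlo)⟩, ?_, ?_⟩
  · show p < q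
    exact_mod_cast phi.trans_lt qlo
  · show p * q ^ 2 ≤ x
    have h3 : (p : ℝ) * (q : ℝ) ^ 2 ≤ (x : ℝ) ^ v * ((x : ℝ) ^ ((1 - v) / 2)) ^ 2 :=
      mul_le_mul phi (pow_le_pow_left₀ (Nat.cast_nonneg _) qhi 2) (by positivity) (by positivity)
    have h4 : (x : ℝ) ^ v * ((x : ℝ) ^ ((1 - v) / 2)) ^ 2 = x := by
      rw [← Real.rpow_natCast ((x : ℝ) ^ ((1 - v) / 2)) 2, ← Real.rpow_mul hx0.le,
        ← Real.rpow_add hx0]
      have : v + (1 - v) / 2 * ((2 : ℕ) : ℝ) = 1 := by push_cast; ring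
      rw [this, Real.rpow_one]
    rw [h4] at h3
    exact_mod_cast h3

private theorem Lr3_cellsum {x : ℕ} {u v : ℝ} (hx : 1 < x) (hv : v ≤ 1 / 3) :
    (∑ p ∈ Cell x u v, 1 / (p : ℝ)) *
        (∑ q ∈ Cell x v ((1 - v) / 2), 1 / (q : ℝ) * (1 / (1 - u - Real.log q / Real.log x))) ≤
      ∑ pq ∈ Cell x u v ×ˢ Cell x v ((1 - v) / 2), Lr3_F x pq := by
  rw [Finset.sum_mul_sum, Finset.sum_product]
  refine sum_le_sum fun p hp => sum_le_sum fun q hq => ?_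
  rw [Lr3_mem] at hp hq
  obtain ⟨px, pp, plo, phi⟩ := hp
  obtain ⟨qx, qp, qlo, qhi⟩ := hq
  have l1 := Lr3_log_lo hx plo
  have l2 := Lr3_log_hi hx pp.pos phi
  have l3 := Lr3_log_hi hx qp.pos qhi
  have hp0 : (0 : ℝ) < p := by exact_mod_cast pp.pos
  have hq0 : (0 : ℝ) < q := by exact_mod_cast qp.pos
  unfold Lr3_F
  simp only [Nat.cast_mul]
  rw [Real.log_mul hp0.ne' hq0.ne', add_div]
  have e1 : 1 / (p : ℝ) * (1 / (q : ℝ) * (1 / (1 - u - Real.log q / Real.log x))) =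
      1 / ((p : ℝ) * q) * (1 / (1 - u - Real.log q / Real.log x)) := by
    rw [← mul_assoc, one_div_mul_one_div]
  rw [e1]
  refine mul_le_mul_of_nonneg_left ?_ (by positivity)
  refine one_div_le_one_div_of_le ?_ ?_
  · linarith
  · linarith

private theorem Lr3_prod {a b L I e : ℝ} (ha : L - e ≤ a) (hb : I - e ≤ b) (ha0 : 0 ≤ a)
    (hb0 : 0 ≤ b) (hL : 0 ≤ L) (hI : 0 ≤ I) (he : 0 ≤ e) : L * I - e * (L + I) ≤ a * b := by
  rcases le_total 0 (L - e) with h1 | h1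
  · rcases le_total 0 (I - e) with h2 | h2
    · have h3 : (L - e) * (I - e) ≤ a * b := mul_le_mul ha hb h2 ha0
      nlinarith [mul_nonneg he he]
    · have h3 : 0 ≤ a * b := mul_nonneg ha0 hb0
      nlinarith
  · have h3 : 0 ≤ a * b := mul_nonneg ha0 hb0
    nlinarith

private theorem Lr3_In_nonneg {u v : ℝ} (hu : 0 < u) (huv : u < v) (hv : v ≤ 1 / 3) :
    0 ≤ In3 u v := by
  unfold In3
  have h1 : 0 < 1 - u := by linarith
  have h2 : 0 < 1 - u - (1 - v) / 2 := by linarith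
  have h3 : 0 < v := by linarith
  refine mul_nonneg (by positivity) (Real.log_nonneg ?_)
  rw [le_div_iff₀ (by positivity)]
  nlinarith

theorem Lr3 (δ ε : ℝ) (hδ : 0 < δ) (hδ1 : δ < 1 / 3) (hε : 0 < ε) (J : ℕ) (u : ℕ → ℝ) (hu0 : u 0 = δ) (huJ : u J = 1 / 3)
    (hmono : ∀ j < J, u j < u (j + 1)) : ∀ᶠ x : ℕ in atTop,
    1 + Real.log ((1 - δ) / δ) + (∑ j ∈ range J, Real.log (u (j + 1) / u j) * In3 (u j) (u (j + 1))) - ε ≤
      Lx (S3 x δ) x := by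
  have hm := Lr3_monou hmono
  have hlo : ∀ j, j ≤ J → δ ≤ u j := fun j hj => hu0 ▸ hm 0 j (Nat.zero_le _) hj
  have hhi : ∀ j, j ≤ J → u j ≤ 1 / 3 := fun j hj => huJ ▸ hm j J hj le_rfl
  set L : ℕ → ℝ := fun j => Real.log (u (j + 1) / u j) with hLdef
  set I : ℕ → ℝ := fun j => In3 (u j) (u (j + 1)) with hIdef
  have hL0 : ∀ j ∈ range J, 0 ≤ L j := by
    intro j hj
    rw [mem_range] at hj
    have h1 := hlo j hj.le
    refine Real.log_nonneg ?_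
    rw [le_div_iff₀ (by linarith)]
    linarith [hmono j hj]
  have hI0 : ∀ j ∈ range J, 0 ≤ I j := by
    intro j hj
    rw [mem_range] at hj
    exact Lr3_In_nonneg (hδ.trans_le (hlo j hj.le)) (hmono j hj) (hhi (j + 1) hj)
  set X : ℝ := ∑ j ∈ range J, L j * I j with hX
  set C : ℝ := ∑ j ∈ range J, (L j + I j) with hC
  have hX0 : 0 ≤ X := sum_nonneg fun j hj => mul_nonneg (hL0 j hj) (hI0 j hj)
  have hC0 : 0 ≤ C := sum_nonneg fun j hj => add_nonneg (hL0 j hj) (hI0 j hj)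
  set e1 : ℝ := min 1 (ε / (3 * (X + 1))) with he1
  set e2 : ℝ := ε / (3 * (C + 1)) with he2
  have e1pos : 0 < e1 := lt_min one_pos (by positivity)
  have e1le : e1 ≤ 1 := min_le_left _ _
  have e2pos : 0 < e2 := by positivity
  have e1X : e1 * X ≤ ε / 3 := by
    have h1 : e1 ≤ ε / (3 * (X + 1)) := min_le_right _ _
    calc e1 * X ≤ ε / (3 * (X + 1)) * X := mul_le_mul_of_nonneg_right h1 hX0
      _ = ε / 3 * (X / (X + 1)) := by field_simp
      _ ≤ ε / 3 * 1 := mul_le_mul_of_nonneg_left ((div_le_one (by linarith)).2 (by linarith))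
          (by linarith)
      _ = ε / 3 := mul_one _
  have e2C : e2 * C ≤ ε / 3 := by
    calc e2 * C = ε / 3 * (C / (C + 1)) := by rw [he2]; field_simp
      _ ≤ ε / 3 * 1 := mul_le_mul_of_nonneg_left ((div_le_one (by linarith)).2 (by linarith))
          (by linarith)
      _ = ε / 3 := mul_one _
  have hev1 : ∀ᶠ x : ℕ in atTop, ∀ j ∈ range J,
      L j - e2 ≤ ∑ p ∈ Cell x (u j) (u (j + 1)), 1 / (p : ℝ) := by
    rw [Filter.eventually_all_finset]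
    intro j hj
    rw [mem_range] at hj
    exact mert_low (u j) (u (j + 1)) e2 (hδ.trans_le (hlo j hj.le)) (hmono j hj).le
      (by linarith [hhi (j + 1) hj]) e2pos
  have hev2 : ∀ᶠ x : ℕ in atTop, ∀ j ∈ range J,
      I j - e2 ≤ ∑ q ∈ Cell x (u (j + 1)) ((1 - u (j + 1)) / 2),
        1 / (q : ℝ) * (1 / (1 - u j - Real.log q / Real.log x)) := by
    rw [Filter.eventually_all_finset]
    intro j hj
    rw [mem_range] at hj
    have h1 := hlo j hj.le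
    have h2 := hmono j hj
    have h3 := hhi (j + 1) hj
    exact mert_int (1 - u j) (u (j + 1)) ((1 - u (j + 1)) / 2) e2 (by linarith) (by linarith)
      (by linarith) (by linarith) e2pos
  filter_upwards [S2_cof δ hδ, DP_cof e1 e1pos, Lr2 δ (ε / 3) hδ (by linarith) (by linarith), hev1,
    hev2, eventually_gt_atTop 1] with x hS2 hDP hLr2 hl hi hx
  -- splitting
  have hdisj : Disjoint (S2 x δ) ((Pr3 x δ).image (fun pq : ℕ × ℕ => pq.1 * pq.2)) := by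
    rw [Finset.disjoint_left]
    intro a ha hb
    rw [mem_image] at hb
    obtain ⟨⟨p, q⟩, hpq, rfl⟩ := hb
    have h1 := (hS2 _ ha).2
    rw [Lr3_memPr] at hpq
    rw [Lr3_len (Lr3_mem.1 hpq.1.1).2.1 (Lr3_mem.1 hpq.1.2).2.1] at h1
    omega
  have hsplit : Lx (S3 x δ) x = Lx (S2 x δ) x +
      ∑ pq ∈ Pr3 x δ, DP (x / (pq.1 * pq.2)) * Real.log x / x := by
    unfold Lx S3
    rw [sum_union hdisj, sum_image (Lr3_inj x δ), add_mul, add_div, sum_mul, sum_div, sum_mul,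
      sum_div]
  -- the sum over the pairs
  have hpairs : (1 - e1) * ∑ pq ∈ Pr3 x δ, Lr3_F x pq ≤
      ∑ pq ∈ Pr3 x δ, DP (x / (pq.1 * pq.2)) * Real.log x / x := by
    rw [mul_sum]
    refine sum_le_sum fun pq hpq => ?_
    obtain ⟨h0, h1, -⟩ := Lr3_cofpair (p := pq.1) (q := pq.2) hx.le hpq
    exact hDP (pq.1 * pq.2) h0 h1
  have hcells : ∑ j ∈ range J, ∑ pq ∈ Cell x (u j) (u (j + 1)) ×ˢ
      Cell x (u (j + 1)) ((1 - u (j + 1)) / 2), Lr3_F x pq ≤ ∑ pq ∈ Pr3 x δ, Lr3_F x pq := by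
    rw [← sum_biUnion]
    · refine sum_le_sum_of_subset_of_nonneg ?_ fun pq hpq _ => Lr3_F_nonneg hx hpq
      intro pq hpq
      rw [mem_biUnion] at hpq
      obtain ⟨j, hj, hpq⟩ := hpq
      rw [mem_range] at hj
      rw [mem_product] at hpq
      exact Lr3_sub hx (hlo j hj.le) (hmono j hj).le hpq.1 hpq.2
    · have key : ∀ i j, i < j → j < J → Disjoint
          (Cell x (u i) (u (i + 1)) ×ˢ Cell x (u (i + 1)) ((1 - u (i + 1)) / 2))
          (Cell x (u j) (u (j + 1)) ×ˢ Cell x (u (j + 1)) ((1 - u (j + 1)) / 2)) := by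
        intro i j hij hj
        rw [Finset.disjoint_left]
        intro pq h1 h2
        rw [mem_product] at h1 h2
        have h3 := (Lr3_mem.1 h1.1).2.2.2
        have h4 := (Lr3_mem.1 h2.1).2.2.1
        have h5 : (x : ℝ) ^ (u (i + 1)) ≤ (x : ℝ) ^ (u j) :=
          Real.rpow_le_rpow_of_exponent_le (by exact_mod_cast hx.le) (hm (i + 1) j hij hj.le)
        linarith
      intro i hi' j hj' hij
      have hi'' : i < J := mem_range.1 (mem_coe.1 hi')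
      have hj'' : j < J := mem_range.1 (mem_coe.1 hj')
      rcases lt_or_gt_of_ne hij with h | h
      · exact key i j h hj''
      · exact (key j i h hi'').symm
  have hmain : X - e2 * C ≤ ∑ pq ∈ Pr3 x δ, Lr3_F x pq := by
    refine le_trans ?_ hcells
    have : X - e2 * C = ∑ j ∈ range J, (L j * I j - e2 * (L j + I j)) := by
      rw [sum_sub_distrib, ← mul_sum]
    rw [this]
    refine sum_le_sum fun j hj => ?_
    have hj' := mem_range.1 hj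
    have h1 := hlo j hj'.le
    have h2 := hmono j hj'
    have h3 := hhi (j + 1) hj'
    refine (Lr3_prod (hl j hj) (hi j hj) (sum_nonneg fun p _ => by positivity)
      (sum_nonneg fun q hq => ?_) (hL0 j hj) (hI0 j hj) e2pos.le).trans
      (Lr3_cellsum hx h3)
    have h4 := Lr3_log_hi hx (Lr3_mem.1 hq).2.1.pos (Lr3_mem.1 hq).2.2.2
    have h5 : 0 < 1 - u j - Real.log q / Real.log x := by linarith
    positivity
  have hfin : X - e1 * X - e2 * C ≤ (1 - e1) * ∑ pq ∈ Pr3 x δ, Lr3_F x pq := by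
    have h1 : (1 - e1) * (X - e2 * C) ≤ (1 - e1) * ∑ pq ∈ Pr3 x δ, Lr3_F x pq :=
      mul_le_mul_of_nonneg_left hmain (by linarith)
    have h2 : 0 ≤ e1 * (e2 * C) := by positivity
    nlinarith
  rw [hsplit]
  linarith

end Pool.Agent.H76.ISE
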