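import Pool.Agent.H76.ISE.TrQ
import Pool.Agent.H36.IS.SumI
import Pool.Agent.H36.IS.AlgC

/-!
# ISE SumE: the exact sum over the marks

(1) Uniqueness: for n > x and m = n + h i = a q with a ∈ S (`Cof`), q prime: q = m/a > x/a ≥ every prime factor of a, so q is the largest prime
 factor of m and a = m/q is determined.  Hence ∑_{MkS} F = ∑_{a ∈ S} ∑_{Mk1 a} F (`sum_biUnion`-type; the sets are pairwise disjoint).
(2) For such n no atom e ∈ Si x δ i occurs: the prime factors of m are those of a (> x^δ) and q > x/a ≥ x^(3/10) ≥ x^δ.  So with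
 v = pr (Si x δ i) (fo gi) y: Ly h x δ y n = Ly h x δ v n (`Ev_lam_pr`).
(3) Ly(v)² = Ev (EX ι x) (uc (EX ι x) λ λ) (yy h n), λ = lam (EZ ι x δ) gi v, as in SumI (`Ev_uc`, `Ev_sup`, `cls_lam`, `cls_uc`, `yok_pr`): the array is in
 the class (B', M', x^(2θ)), 2θ ≤ 1/10, and it has no atoms in component i (v R ≠ 0 → Disjoint R (Si x δ i), R ⊆ EZ; λ D ≠ 0 → D ⊆ R, `lam_sup`).
(4) `trQ` for every a ∈ S, and Ev (EX) (uc λ λ) gi = My ι x δ v (`EE_lam`).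
(5) Errors: ∑_{a ∈ S} x/(a (log x)^A') ≤ x (1 + log x)/(log x)^A' ≤ x/(log x)^A  (∑_{a ≤ x} 1/a ≤ 1 + log x; S ⊆ [1, x]).
-/

set_option autoImplicit false

namespace Pool.Agent.H76.ISE

open Finset Filter Pool.Agent.H36.IS

section

variable {ι : Type} [Fintype ι] [DecidableEq ι]

private theorem SumE_EZ_sub (x : ℕ) (δ : ℝ) : EZ ι x δ ⊆ EX ι x := by
  intro e he
  unfold EZ at he
  unfold EX
  rw [mem_product] at he ⊢
  exact ⟨he.1, filter_subset _ _ he.2⟩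

private theorem SumE_Si_sub (x : ℕ) (δ : ℝ) (i : ι) : Si x δ i ⊆ EZ ι x δ := by
  intro e he
  unfold Si at he
  unfold EZ
  rw [mem_product] at he ⊢
  exact ⟨mem_univ _, he.2⟩

private theorem SumE_mem_Si {x : ℕ} {δ : ℝ} {i : ι} {e : ι × ℕ} :
    e ∈ Si x δ i ↔ e.1 = i ∧ e.2 ∈ PZ x δ := by
  unfold Si
  rw [mem_product, mem_singleton]

private theorem SumE_hg (x : ℕ) (δ : ℝ) : ∀ e ∈ EZ ι x δ, 0 < gi e ∧ gi e < 1 := fun e he =>
  (fo_gi (SumE_EZ_sub (ι := ι) x δ he)).2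

private theorem SumE_yy (h : ι → ℕ) (n : ℕ) (e : ι × ℕ) : yy h n e = 0 ∨ yy h n e = 1 := by
  unfold yy
  split_ifs
  · exact Or.inr rfl
  · exact Or.inl rfl

private theorem SumE_yy_zero {h : ι → ℕ} {n x a : ℕ} {δ : ℝ} {i : ι} (hδ1 : δ ≤ 3 / 10) (hn : x < n)
    (hx : 1 ≤ x) (ha : Cof x δ a) (hm : Mk1 a (n + h i)) :
    ∀ e ∈ Si x δ i, yy h n e = 0 := by
  intro e he
  obtain ⟨h1, h2⟩ := SumE_mem_Si.1 he
  unfold PZ PX at h2
  rw [mem_filter, mem_filter, mem_range] at h2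
  obtain ⟨⟨h3, h4, _⟩, h5⟩ := h2
  unfold yy
  rw [if_neg]
  intro hd
  rw [h1] at hd
  obtain ⟨ha0, ha1, ha2⟩ := ha
  obtain ⟨hm1, hm2⟩ := hm
  have hmul : a * ((n + h i) / a) = n + h i := Nat.mul_div_cancel' hm1
  rw [← hmul] at hd
  have hx1 : (1 : ℝ) ≤ x := by exact_mod_cast hx
  have hx0 : (0 : ℝ) < x := by linarith
  rcases (Nat.Prime.dvd_mul h4).1 hd with hd' | hd'
  · have := (ha2 e.2 h4 hd').1
    linarith
  · have h6 := (Nat.prime_dvd_prime_iff_eq h4 hm2).1 hd'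
    rw [← h6] at hmul
    have h7 : (x : ℝ) < a * e.2 := by
      have : x < a * e.2 := by omega
      exact_mod_cast this
    have h8 : (e.2 : ℝ) ≤ (x : ℝ) ^ (3 / 10 : ℝ) :=
      h5.trans (Real.rpow_le_rpow_of_exponent_le hx1 hδ1)
    have h9 : (a : ℝ) * e.2 ≤ (x : ℝ) ^ (7 / 10 : ℝ) * (x : ℝ) ^ (3 / 10 : ℝ) :=
      mul_le_mul ha1 h8 (Nat.cast_nonneg _) (Real.rpow_nonneg hx0.le _)
    rw [← Real.rpow_add hx0] at h9
    norm_num at h9
    linarith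

private theorem SumE_uniq {x m a a' : ℕ} {δ : ℝ} (hm : x < m) (ha : Cof x δ a) (ha' : Cof x δ a')
    (h : Mk1 a m) (h' : Mk1 a' m) : a = a' := by
  obtain ⟨h1, h2⟩ := h
  obtain ⟨h1', h2'⟩ := h'
  have e1 : a * (m / a) = m := Nat.mul_div_cancel' h1
  have e2 : a' * (m / a') = m := Nat.mul_div_cancel' h1'
  have key : m / a = m / a' := by
    by_contra hne
    have d1 : m / a ∣ a' := by
      have : m / a ∣ a' * (m / a') := by
        rw [e2]
        exact ⟨a, by rw [mul_comm]; exact e1.symm⟩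
      rcases (Nat.Prime.dvd_mul h2).1 this with h | h
      · exact h
      · exact absurd ((Nat.prime_dvd_prime_iff_eq h2 h2').1 h) hne
    have d2 : m / a' ∣ a := by
      have : m / a' ∣ a * (m / a) := by
        rw [e1]
        exact ⟨a', by rw [mul_comm]; exact e2.symm⟩
      rcases (Nat.Prime.dvd_mul h2').1 this with h | h
      · exact h
      · exact absurd ((Nat.prime_dvd_prime_iff_eq h2' h2).1 h).symm hne
    have l1 := (ha'.2.2 _ h2 d1).2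
    have l2 := (ha.2.2 _ h2' d2).2
    have l1' : m / a * a' < m / a' * a' := by
      rw [mul_comm (m / a') a', e2]
      omega
    have l2' : m / a' * a < m / a * a := by
      rw [mul_comm (m / a) a, e1]
      omega
    have l1'' := Nat.lt_of_mul_lt_mul_right l1'
    have l2'' := Nat.lt_of_mul_lt_mul_right l2'
    omega
  have hpos : 0 < m / a := h2.pos
  rw [← key] at e2
  exact Nat.eq_of_mul_eq_mul_right hpos (e1.trans e2.symm)

private theorem SumE_harm {x : ℕ} {S : Finset ℕ} (hS : ∀ a ∈ S, 0 < a ∧ a ≤ x) :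
    ∑ a ∈ S, 1 / (a : ℝ) ≤ 1 + Real.log x := by
  have h1 := harmonic_le_one_add_log x
  rw [harmonic_eq_sum_Icc] at h1
  push_cast at h1
  refine le_trans ?_ h1
  calc ∑ a ∈ S, 1 / (a : ℝ) = ∑ a ∈ S, (a : ℝ)⁻¹ := sum_congr rfl fun a _ => one_div _
    _ ≤ ∑ a ∈ Icc 1 x, (a : ℝ)⁻¹ := by
      refine sum_le_sum_of_subset_of_nonneg ?_ fun a _ _ => by positivity
      intro a ha
      exact mem_Icc.mpr (hS a ha)

open Classical in
/-- the basic sum over the marks with cofactor `a` for arrays without atoms in component `i` -/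
private theorem SumE_core (ι : Type) [Fintype ι] [DecidableEq ι] (h : ι → ℕ) (W b : ℕ) (hG : Good h W b) (B1 : ℕ)
    (δ θ : ℝ) (hδ : 0 < δ) (hθ1 : θ ≤ 1 / 20) (A : ℕ) :
    ∀ᶠ x : ℕ in atTop, ∀ i : ι, ∀ v : Finset (ι × ℕ) → ℝ, Yok x δ θ (Real.log x ^ B1) v →
      (∀ R, v R ≠ 0 → Disjoint R (Si x δ i)) → ∀ a : ℕ, Cof x δ a →
      |∑ n ∈ (AA h W b x).filter (fun n => Mk1 a (n + h i)), Ly h x δ v n ^ 2 -
        Mn ι W x * (DP (x / a) / (x * A0 x)) * My ι x δ v| ≤ x / (a * Real.log x ^ A) := by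
  obtain ⟨B, hB⟩ := cls_lam ι B1
  have hT : ∀ᶠ x : ℕ in atTop, ∀ i : ι, ∀ a : ℕ,
      0 < a → (a : ℝ) ≤ (x : ℝ) ^ (7 / 10 : ℝ) → (∀ p : ℕ, p.Prime → p ∣ a → (x : ℝ) ^ δ < p) →
      ∀ c : Finset (ι × ℕ) → ℝ, Cls x (B + B) (2 + 2 + 2 * 2) ((x : ℝ) ^ (1 / 10 : ℝ)) c →
      (∀ Q, c Q ≠ 0 → ∀ e ∈ Q, e.1 ≠ i) →
      |∑ n ∈ (AA h W b x).filter (fun n => Mk1 a (n + h i)), Ev (EX ι x) c (yy h n) -
          Mn ι W x * (DP (x / a) / (x * A0 x)) * Ev (EX ι x) c gi| ≤ x / (a * Real.log x ^ A) :=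
    eventually_all.2 fun i => trQ ι h W b hG i (B + B) (2 + 2 + 2 * 2) δ (by norm_num) hδ A
  have hlog : ∀ᶠ x : ℕ in atTop, 1 ≤ Real.log x :=
    (Real.tendsto_log_atTop.comp tendsto_natCast_atTop_atTop).eventually_ge_atTop 1
  filter_upwards [hB, hT, hlog, eventually_ge_atTop 1] with x hx hI hx1 hx2
  intro i v hv hvd a ha
  have hx1' : (1 : ℝ) ≤ x := by exact_mod_cast hx2
  have hx0 : (0 : ℝ) < x := by linarith
  have hc := hx δ θ v hv
  have hsup : ∀ D, lam (EZ ι x δ) gi v D ≠ 0 → D ⊆ EZ ι x δ \ Si x δ i := by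
    intro D hD
    obtain ⟨R, h1, h2, h3⟩ := lam_sup hD
    intro e he
    rw [Finset.mem_sdiff]
    exact ⟨h2 (h1 he), fun h4 => (Finset.disjoint_left.1 (hvd R h3)) (h1 he) h4⟩
  have hsup' : ∀ D, lam (EZ ι x δ) gi v D ≠ 0 → D ⊆ EZ ι x δ := fun D hD =>
    (hsup D hD).trans sdiff_subset
  have hcc := cls_uc hx1 (by norm_num) (by norm_num) (Real.rpow_nonneg hx0.le _) (Real.rpow_nonneg hx0.le _) hc hc
  rw [← Real.rpow_add hx0] at hcc
  have hcc2 := hcc.mono hx1 le_rfl (by norm_num) le_rfl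
    (Real.rpow_le_rpow_of_exponent_le hx1' (by linarith : θ + θ ≤ 1 / 10))
  have hne : ∀ Q, uc (EX ι x) (lam (EZ ι x δ) gi v) (lam (EZ ι x δ) gi v) Q ≠ 0 → ∀ e ∈ Q, e.1 ≠ i := by
    intro Q hQ e he h1
    have h2 := (uc_sup hsup hsup Q hQ).1 he
    rw [union_self, Finset.mem_sdiff] at h2
    refine h2.2 (SumE_mem_Si.2 ⟨h1, ?_⟩)
    have h3 := h2.1
    unfold EZ at h3
    exact (mem_product.1 h3).2
  have hmain := hI i a ha.1 ha.2.1 (fun p hp hpa => (ha.2.2 p hp hpa).1) _ hcc2 hne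
  have hsup2 : ∀ Q, uc (EZ ι x δ) (lam (EZ ι x δ) gi v) (lam (EZ ι x δ) gi v) Q ≠ 0 → Q ⊆ EZ ι x δ :=
    fun Q hQ => (uc_sup hsup' hsup' Q hQ).2
  have hEv : ∀ z : ι × ℕ → ℝ, Ev (EX ι x) (uc (EX ι x) (lam (EZ ι x δ) gi v) (lam (EZ ι x δ) gi v)) z =
      Ev (EZ ι x δ) (uc (EZ ι x δ) (lam (EZ ι x δ) gi v) (lam (EZ ι x δ) gi v)) z := by
    intro z
    rw [uc_ground (SumE_EZ_sub x δ) hsup' hsup', Ev_sup (SumE_EZ_sub x δ) hsup2]
  have h1 : ∀ n, Ev (EX ι x) (uc (EX ι x) (lam (EZ ι x δ) gi v) (lam (EZ ι x δ) gi v)) (yy h n) =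
      Ly h x δ v n ^ 2 := by
    intro n
    rw [hEv, Ev_uc _ _ (fun e _ => SumE_yy h n e), sq]
    rfl
  have h2 : Ev (EX ι x) (uc (EX ι x) (lam (EZ ι x δ) gi v) (lam (EZ ι x δ) gi v)) gi = My ι x δ v := by
    rw [hEv, EE_lam (SumE_hg x δ)]
    unfold My MM
    refine sum_congr rfl fun R _ => ?_
    rw [sq]
  rw [h2] at hmain
  simp only [h1] at hmain
  exact hmain

end

open Classical in
theorem sumE (ι : Type) [Fintype ι] [DecidableEq ι] (h : ι → ℕ) (W b : ℕ) (hG : Good h W b) (B1 : ℕ) (δ θ : ℝ)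
    (hδ : 0 < δ) (hδ1 : δ ≤ 3 / 10) (hθ : 0 ≤ θ) (hθ1 : θ ≤ 1 / 20) (A : ℕ) :
    ∀ᶠ x : ℕ in atTop, ∀ S : Finset ℕ, (∀ a ∈ S, Cof x δ a) →
      ∀ y : Finset (ι × ℕ) → ℝ, Yok x δ θ (Real.log x ^ B1) y → ∀ i,
      |∑ n ∈ (AA h W b x).filter (fun n => MkS S (n + h i)), Ly h x δ y n ^ 2 -
        Mn ι W x * ((∑ a ∈ S, DP (x / a)) / (x * A0 x)) * My ι x δ (pr (Si x δ i) (fo gi) y)| ≤
          x / Real.log x ^ A := by
  obtain ⟨B, hB⟩ := yok_pr ι B1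
  have hlog : ∀ᶠ x : ℕ in atTop, 2 ≤ Real.log x :=
    (Real.tendsto_log_atTop.comp tendsto_natCast_atTop_atTop).eventually_ge_atTop 2
  filter_upwards [hB, SumE_core ι h W b hG B δ θ hδ hθ1 (A + 2), hlog, eventually_ge_atTop 1]
    with x hx hI hL hx2
  intro S hS y hy i
  have hx1' : (1 : ℝ) ≤ x := by exact_mod_cast hx2
  have hx0 : (0 : ℝ) < x := by linarith
  have hL0 : 0 < Real.log x := by linarith
  set v := pr (Si x δ i) (fo gi) y with hv
  have hvY := hx δ θ y (Si x δ i) (SumE_Si_sub x δ i) hy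
  have hvd : ∀ R, v R ≠ 0 → Disjoint R (Si x δ i) := fun R hR => (pr_disj hR).1
  have hmem : ∀ n ∈ AA h W b x, x < n := by
    intro n hn
    unfold AA at hn
    rw [mem_filter, mem_Ioc] at hn
    exact hn.1.1
  -- the sum is a sum over the cofactors
  have hbi : (AA h W b x).filter (fun n => MkS S (n + h i)) =
      S.biUnion (fun a => (AA h W b x).filter (fun n => Mk1 a (n + h i))) := by
    ext n
    rw [mem_filter, mem_biUnion]
    constructor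
    · rintro ⟨h1, a, ha, h2⟩
      exact ⟨a, ha, mem_filter.mpr ⟨h1, h2⟩⟩
    · rintro ⟨a, ha, h1⟩
      rw [mem_filter] at h1
      exact ⟨h1.1, a, ha, h1.2⟩
  have hdisj : ∀ a ∈ S, ∀ a' ∈ S, a ≠ a' →
      Disjoint ((AA h W b x).filter (fun n => Mk1 a (n + h i)))
        ((AA h W b x).filter (fun n => Mk1 a' (n + h i))) := by
    intro a ha a' ha' hne
    rw [Finset.disjoint_left]
    intro n hn hn'
    rw [mem_filter] at hn hn'
    have h1 := hmem n hn.1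
    exact hne (SumE_uniq (by omega : x < n + h i) (hS a ha) (hS a' ha') hn.2 hn'.2)
  have hsum : ∑ n ∈ (AA h W b x).filter (fun n => MkS S (n + h i)), Ly h x δ y n ^ 2 =
      ∑ a ∈ S, ∑ n ∈ (AA h W b x).filter (fun n => Mk1 a (n + h i)), Ly h x δ v n ^ 2 := by
    rw [hbi, sum_biUnion hdisj]
    refine sum_congr rfl fun a ha => sum_congr rfl fun n hn => ?_
    rw [mem_filter] at hn
    congr 1
    unfold Ly
    exact (Ev_lam_pr (SumE_Si_sub x δ i) (SumE_hg x δ) y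
      (SumE_yy_zero hδ1 (hmem n hn.1) hx2 (hS a ha) hn.2)).symm
  have hmain : Mn ι W x * ((∑ a ∈ S, DP (x / a)) / (x * A0 x)) * My ι x δ v =
      ∑ a ∈ S, Mn ι W x * (DP (x / a) / (x * A0 x)) * My ι x δ v := by
    rw [sum_div, mul_sum, sum_mul]
  rw [hsum, hmain, ← sum_sub_distrib]
  have hax : ∀ a ∈ S, 0 < a ∧ a ≤ x := by
    intro a ha
    refine ⟨(hS a ha).1, ?_⟩
    have h1 := (hS a ha).2.1
    have h2 : (x : ℝ) ^ (7 / 10 : ℝ) ≤ (x : ℝ) ^ (1 : ℝ) :=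
      Real.rpow_le_rpow_of_exponent_le hx1' (by norm_num)
    rw [Real.rpow_one] at h2
    exact_mod_cast h1.trans h2
  calc |∑ a ∈ S, (∑ n ∈ (AA h W b x).filter (fun n => Mk1 a (n + h i)), Ly h x δ v n ^ 2 -
        Mn ι W x * (DP (x / a) / (x * A0 x)) * My ι x δ v)|
      ≤ ∑ a ∈ S, |∑ n ∈ (AA h W b x).filter (fun n => Mk1 a (n + h i)), Ly h x δ v n ^ 2 -
        Mn ι W x * (DP (x / a) / (x * A0 x)) * My ι x δ v| := abs_sum_le_sum_abs _ _
    _ ≤ ∑ a ∈ S, x / (a * Real.log x ^ (A + 2)) :=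
        sum_le_sum fun a ha => hI i v hvY hvd a (hS a ha)
    _ = x / Real.log x ^ (A + 2) * ∑ a ∈ S, 1 / (a : ℝ) := by
        rw [mul_sum]
        refine sum_congr rfl fun a ha => ?_
        have h1 : (a : ℝ) ≠ 0 := by exact_mod_cast (hS a ha).1.ne'
        field_simp
    _ ≤ x / Real.log x ^ (A + 2) * (Real.log x ^ 2) := by
        refine mul_le_mul_of_nonneg_left ((SumE_harm hax).trans ?_) (by positivity)
        nlinarith
    _ = x / Real.log x ^ A := by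
        rw [pow_add]
        field_simp

end Pool.Agent.H76.ISE
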