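import Pool.Agent.H36.IS.MD
import Pool.Agent.H36.IS.SumG
import Pool.Agent.H36.IS.Tval
import Pool.Agent.H36.IS.GL
import Pool.Agent.H76.ISE.SumE

/-!
# ISE MarkG: the data of the exact marks (general)

`MkS_noatom`: m = a q, a ∈ S, x < m: the prime factors of m are those of a (> x^δ) and q = m/a > x/a ≥ x^(3/10) ≥ x^δ (Cof: a ≤ x^(7/10)), so no p ∈ PZ x δ
 divides m.
`markE_gen`: mk x m = R m ∧ MkS (S x) m;  l x = Lx (S x) x/tau x = (∑_{a ∈ S x} DP(x/a))/(x A0 x) (tau x = A0 x log x);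
 q1 x = 1/GG (PZ x δ) (δ/2 log x)  [δ/2 + θ < 1/2];  q2 x = 1/G2 (PZ x δ) (0.498 log x)  [0.498 + θ < 1/2];  c' = L, C = 2/δ (`GG_low`:
 GG ≥ A0 (δ/2) log x = (δ/2) tau).  c q2 ≤ l²: l² ≥ (L/tau)², 1/G2 ≤ 1/(g tau²), so (L² g) q2 ≤ L²/tau² ≤ l².  (tau x > 0 eventually: A0 > 0.)
 Lower sums: for n ∈ AA and large x, MkS (S x) (n + h i) implies R (n + h i) (hR with s = the maximum of h; x < n ≤ 2x), so the filtered set is that of
 `sumE` (B1 = 1: K ≤ log x eventually, Yok with K is Yok with (log x)^1).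
 Upper sums: `sumG` with S = Si x δ i, Z A = [∑_{e∈A} log e.2 ≤ (δ/2) log x] (`T_one`) resp. S = Si i ∪ Si j, Z A = [∑ log ≤ 0.498 log x] (`T_two`): a mark has
 no atom e ∈ Si x δ i (`MkS_noatom`; T ≥ 1 because of the empty set), ∑_{A} log ≤ ρ log x gives ∏ e.2 ≤ x^ρ; the sum over the marks is ≤ the sum over
 {no atom of S} (nonnegative terms).  All as in Pool/Agent/H36/IS/MarkR.lean (`markR_gen`; adapt the finished file if it is there).
-/

set_option autoImplicit false

namespace Pool.Agent.H76.ISE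

open Finset Filter Pool.Agent.H36.IS

private theorem MarkG_fnn {p : ℕ} (hp : 1 ≤ p) : 0 ≤ fn p := by
  unfold fn
  have : (1 : ℝ) ≤ p := by exact_mod_cast hp
  exact div_nonneg zero_le_one (by linarith)

private theorem MarkG_A0 (x : ℕ) : 0 < A0 x := by
  unfold A0
  apply Finset.prod_pos
  intro p hp
  unfold PA at hp
  rw [Finset.mem_filter] at hp
  have h2 : (1 : ℝ) < p := by exact_mod_cast hp.2.1.one_lt
  have : 1 / (p : ℝ) < 1 := by
    rw [div_lt_one (by linarith)]
    exact h2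
  linarith

private theorem MarkG_PZ {x : ℕ} {δ : ℝ} {p : ℕ} (hp : p ∈ PZ x δ) : p.Prime := by
  unfold PZ PX at hp
  rw [Finset.mem_filter, Finset.mem_filter] at hp
  exact hp.1.2.1

private theorem MarkG_GG (x : ℕ) (δ t : ℝ) (ht : 0 ≤ t) : 1 ≤ GG (PZ x δ) t := by
  unfold GG
  have h0 : ∀ S ∈ (PZ x δ).powerset, 0 ≤ (if lg S ≤ t then ∏ p ∈ S, fn p else 0) := by
    intro S hS
    rw [Finset.mem_powerset] at hS
    split_ifs
    · exact Finset.prod_nonneg (fun p hp => MarkG_fnn (MarkG_PZ (hS hp)).one_lt.le)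
    · exact le_rfl
  refine le_trans (le_of_eq ?_) (Finset.single_le_sum h0 (Finset.empty_mem_powerset _))
  rw [if_pos (by unfold lg; simpa using ht)]
  simp

private theorem MarkG_G2 (x : ℕ) (δ t : ℝ) (ht : 0 ≤ t) : 1 ≤ G2 (PZ x δ) t := by
  unfold G2
  have h0 : ∀ S ∈ (PZ x δ).powerset, ∀ S' ∈ (PZ x δ).powerset,
      0 ≤ (if lg S + lg S' ≤ t then (∏ p ∈ S, fn p) * ∏ p ∈ S', fn p else 0) := by
    intro S hS S' hS'
    rw [Finset.mem_powerset] at hS hS'
    split_ifs
    · exact mul_nonneg (Finset.prod_nonneg (fun p hp => MarkG_fnn (MarkG_PZ (hS hp)).one_lt.le))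
        (Finset.prod_nonneg (fun p hp => MarkG_fnn (MarkG_PZ (hS' hp)).one_lt.le))
    · exact le_rfl
  refine le_trans ?_ (Finset.single_le_sum (fun S hS => Finset.sum_nonneg (h0 S hS)) (Finset.empty_mem_powerset _))
  refine le_trans (le_of_eq ?_) (Finset.single_le_sum (h0 ∅ (Finset.empty_mem_powerset _))
    (Finset.empty_mem_powerset _))
  rw [if_pos (by unfold lg; simpa using ht)]
  simp

private theorem MarkG_prod {ι : Type} [Fintype ι] [DecidableEq ι] {x : ℕ} {δ ρ : ℝ} (hx : (0 : ℝ) < x)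
    (A : Finset (ι × ℕ)) (hA : A ⊆ EZ ι x δ) (h : ∑ e ∈ A, Real.log e.2 ≤ ρ * Real.log x) :
    ∏ e ∈ A, (e.2 : ℝ) ≤ (x : ℝ) ^ ρ := by
  have hpos : ∀ e ∈ A, (0 : ℝ) < e.2 := by
    intro e he
    have := hA he
    unfold EZ at this
    rw [Finset.mem_product] at this
    exact_mod_cast (MarkG_PZ this.2).pos
  rw [Real.rpow_def_of_pos hx, ← Real.exp_log (Finset.prod_pos hpos)]
  apply Real.exp_le_exp.mpr
  rw [Real.log_prod (fun e he => (hpos e he).ne')]
  linarith

private theorem MarkG_Si {ι : Type} [Fintype ι] [DecidableEq ι] (x : ℕ) (δ : ℝ) (i : ι) :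
    Si x δ i ⊆ EZ ι x δ := by
  unfold Si EZ
  exact Finset.product_subset_product (Finset.subset_univ _) le_rfl

theorem MkS_noatom (δ : ℝ) (hδ1 : δ ≤ 3 / 10) {x m : ℕ} (hx : 1 ≤ x) (hm : x < m) {S : Finset ℕ}
    (hS : ∀ a ∈ S, Cof x δ a) (h : MkS S m) : ∀ p ∈ PZ x δ, ¬ p ∣ m := by
  intro p hp hpm
  obtain ⟨a, ha, ham, hq⟩ := h
  obtain ⟨ha0, ha7, hap⟩ := hS a ha
  have hpp := MarkG_PZ hp
  have hpx : (p : ℝ) ≤ (x : ℝ) ^ δ := by
    unfold PZ at hp
    exact (Finset.mem_filter.1 hp).2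
  have hx1 : (1 : ℝ) ≤ x := by exact_mod_cast hx
  have hx0 : (0 : ℝ) < x := by linarith
  have hmul : a * (m / a) = m := Nat.mul_div_cancel' ham
  rw [← hmul] at hpm
  rcases (Nat.Prime.dvd_mul hpp).1 hpm with h1 | h1
  · exact absurd (hap p hpp h1).1 (not_lt.2 hpx)
  · have h2 : p = m / a := (Nat.prime_dvd_prime_iff_eq hpp hq).1 h1
    have h3 : (m : ℝ) ≤ x := by
      calc (m : ℝ) = (a : ℝ) * p := by rw [h2]; exact_mod_cast hmul.symm
        _ ≤ (x : ℝ) ^ (7 / 10 : ℝ) * (x : ℝ) ^ δ := by gcongr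
        _ ≤ (x : ℝ) ^ (7 / 10 : ℝ) * (x : ℝ) ^ (3 / 10 : ℝ) := by
            gcongr
        _ = x := by
            rw [← Real.rpow_add hx0]
            norm_num
    have h4 : (x : ℝ) < m := by exact_mod_cast hm
    linarith

theorem markE_gen (R : ℕ → Prop) (δ θ L g : ℝ) (hδ : 0 < δ) (hδ1 : δ ≤ 3 / 10) (hθ : 0 < θ) (hθ1 : θ ≤ 0.001)
    (S : ℕ → Finset ℕ) (hS : ∀ᶠ x : ℕ in atTop, ∀ a ∈ S x, Cof x δ a)
    (hR : ∀ s : ℕ, ∀ᶠ x : ℕ in atTop, ∀ m : ℕ, x < m → m ≤ 2 * x + s → MkS (S x) m → R m)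
    (hL0 : 0 < L) (hL : ∀ᶠ x : ℕ in atTop, L ≤ Lx (S x) x) (hg0 : 0 < g)
    (hg : ∀ᶠ x : ℕ in atTop, g * tau x ^ 2 ≤ G2 (PZ x δ) (0.498 * Real.log x)) : MarkData R δ θ (L ^ 2 * g) := by
  classical
  refine ⟨fun x m => R m ∧ MkS (S x) m, fun x => (∑ a ∈ S x, DP (x / a)) / (x * A0 x),
    fun x => 1 / GG (PZ x δ) (δ / 2 * Real.log x), fun x => 1 / G2 (PZ x δ) (0.498 * Real.log x),
    L, 2 / δ, fun x m hm => hm.1, hL0, by positivity, ?_, ?_⟩
  · filter_upwards [hL, GG_low, hg, eventually_ge_atTop 2] with x hLx hGG hgx hx2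
    have hx1 : (1 : ℝ) < x := by
      have : 1 < x := by omega
      exact_mod_cast this
    have hx0 : (0 : ℝ) < x := by linarith
    have hlog : 0 < Real.log (x : ℝ) := Real.log_pos hx1
    have hA0 := MarkG_A0 x
    have htau : 0 < tau x := mul_pos hA0 hlog
    have hG1 := MarkG_GG x δ (δ / 2 * Real.log x) (by positivity)
    have hG2 := MarkG_G2 x δ (0.498 * Real.log x) (by positivity)
    have hg1 : 0 < GG (PZ x δ) (δ / 2 * Real.log x) := by linarith
    have hg2 : 0 < G2 (PZ x δ) (0.498 * Real.log x) := by linarith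
    have hlt : (∑ a ∈ S x, DP (x / a)) / (x * A0 x) * tau x = Lx (S x) x := by
      unfold Lx tau
      field_simp
    have hLl : L ≤ (∑ a ∈ S x, DP (x / a)) / (x * A0 x) * tau x := by
      rw [hlt]
      exact hLx
    refine ⟨hLl, by positivity, ?_, by positivity, ?_⟩
    · have h1 := hGG δ hδ (by linarith) (δ / 2 * Real.log x) (by positivity) (by nlinarith)
      rw [one_div_mul_eq_div, div_le_div_iff₀ hg1 hδ]
      have : tau x * δ = 2 * (A0 x * (δ / 2 * Real.log x)) := by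
        unfold tau
        ring
      rw [this]
      linarith
    · rw [mul_one_div, div_le_iff₀ hg2]
      calc L ^ 2 * g ≤ ((∑ a ∈ S x, DP (x / a)) / (x * A0 x) * tau x) ^ 2 * g :=
            mul_le_mul_of_nonneg_right (pow_le_pow_left₀ hL0.le hLl 2) hg0.le
        _ = ((∑ a ∈ S x, DP (x / a)) / (x * A0 x)) ^ 2 * (g * tau x ^ 2) := by ring
        _ ≤ _ := mul_le_mul_of_nonneg_left hgx (sq_nonneg _)
  · intro ι _ _ h W b hG K A
    have hK : ∀ᶠ x : ℕ in atTop, K ≤ Real.log (x : ℝ) ^ 1 := by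
      simp only [pow_one]
      exact (Real.tendsto_log_atTop.comp tendsto_natCast_atTop_atTop).eventually (eventually_ge_atTop K)
    filter_upwards [hK, sumE ι h W b hG 1 δ θ hδ hδ1 hθ.le (by linarith) A,
      sumG ι h W b hG 1 δ θ (δ / 2) hδ (by linarith) (by linarith) A,
      sumG ι h W b hG 1 δ θ 0.498 hδ (by linarith) (by linarith) A, hS, hR (∑ i, h i),
      eventually_ge_atTop 2] with x hKx hse hg1 hg2 hSx hRx hx2
    intro y hy
    have hy' : Yok x δ θ (Real.log x ^ 1) y := by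
      intro Q
      obtain ⟨a, b, c⟩ := hy Q
      exact ⟨a, b.trans hKx, c⟩
    have hx1 : (1 : ℝ) < x := by
      have : 1 < x := by omega
      exact_mod_cast this
    have hxpos : (0 : ℝ) < x := by linarith
    have hlog : 0 < Real.log (x : ℝ) := Real.log_pos hx1
    have hAA : ∀ n ∈ AA h W b x, x < n ∧ n ≤ 2 * x := by
      intro n hn
      unfold AA at hn
      exact Finset.mem_Ioc.1 (Finset.mem_filter.1 hn).1
    have hyy : ∀ n ∈ AA h W b x, ∀ i, MkS (S x) (n + h i) → ∀ e ∈ Si x δ i, yy h n e = 0 := by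
      intro n hn i hm e he
      unfold Si at he
      rw [Finset.mem_product, Finset.mem_singleton] at he
      have h1 := hAA n hn
      unfold yy
      rw [if_neg]
      rw [he.1]
      exact MkS_noatom δ hδ1 (by omega) (by omega) hSx hm e.2 he.2
    refine ⟨fun i => ⟨?_, ?_⟩, fun i j hij => ?_⟩
    · have h3 := (abs_le.mp (hse (S x) hSx y hy' i)).1
      refine le_trans ?_ (Finset.sum_le_sum_of_subset_of_nonneg
        (s := (AA h W b x).filter (fun n => MkS (S x) (n + h i))) ?_ ?_)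
      · linarith
      · intro n hn
        simp only [Finset.mem_filter] at hn ⊢
        refine ⟨hn.1, ?_, hn.2⟩
        have h5 := hAA n hn.1
        have h6 : h i ≤ ∑ i, h i :=
          Finset.single_le_sum (f := h) (fun _ _ => Nat.zero_le _) (Finset.mem_univ i)
        exact hRx (n + h i) (by omega) (by omega) hn.2
      · intro n _ _
        exact sq_nonneg _
    · have := hg1 y (Si x δ i) (fun A => if ∑ e ∈ A, Real.log e.2 ≤ δ / 2 * Real.log x then (1 : ℝ) else 0)
        (GG (PZ x δ) (δ / 2 * Real.log x)) hy' (MarkG_Si x δ i) (fun A => by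
          by_cases hc : ∑ e ∈ A, Real.log e.2 ≤ δ / 2 * Real.log x
          · right; exact if_pos hc
          · left; exact if_neg hc)
        (fun A hA hne => by
          apply MarkG_prod hxpos A (hA.trans (MarkG_Si x δ i))
          by_contra hc
          exact hne (if_neg hc))
        (MarkG_GG x δ _ (by positivity)) (T_one x δ _ i)
      refine le_trans ?_ (this.trans (le_of_eq (by ring)))
      apply Finset.sum_le_sum_of_subset_of_nonneg
      · intro n hn
        simp only [Finset.mem_filter] at hn ⊢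
        exact ⟨hn.1, hyy n hn.1 i hn.2.2⟩
      · intro n _ _
        exact sq_nonneg _
    · have := hg2 y (Si x δ i ∪ Si x δ j)
        (fun A => if ∑ e ∈ A, Real.log e.2 ≤ 0.498 * Real.log x then (1 : ℝ) else 0)
        (G2 (PZ x δ) (0.498 * Real.log x)) hy' (Finset.union_subset (MarkG_Si x δ i) (MarkG_Si x δ j)) (fun A => by
          by_cases hc : ∑ e ∈ A, Real.log e.2 ≤ 0.498 * Real.log x
          · right; exact if_pos hc
          · left; exact if_neg hc)
        (fun A hA hne => by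
          apply MarkG_prod hxpos A (hA.trans (Finset.union_subset (MarkG_Si x δ i) (MarkG_Si x δ j)))
          by_contra hc
          exact hne (if_neg hc))
        (MarkG_G2 x δ _ (by positivity)) (T_two x δ _ i j hij)
      refine le_trans ?_ (this.trans (le_of_eq (by ring)))
      apply Finset.sum_le_sum_of_subset_of_nonneg
      · intro n hn
        simp only [Finset.mem_filter] at hn ⊢
        refine ⟨hn.1, fun e he => ?_⟩
        rw [Finset.mem_union] at he
        rcases he with he | he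
        · exact hyy n hn.1 i hn.2.1.2 e he
        · exact hyy n hn.1 j hn.2.2.2 e he
      · intro n _ _
        exact sq_nonneg _

end Pool.Agent.H76.ISE
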