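import Pool.Agent.H76.ISE.Defs
import Pool.Agent.H91.PK.MB

/-!
# ISE MerL: Mertens from below

`mert_low`: `Pool.Agent.H91...mertens_lower` (H91/PK/MB.lean): ∑_{w<p≤z} 1/p ≥ log(log z/log w) - 0.25/log w with w = ⌊x^α⌋, z = ⌊x^β⌋
(the set Pr w z); log z ≥ β log x - log 2-ish, log w ≤ α log x; the set Cell x α β: x^α < p ≤ x^β iff w < p ≤ z.
`mert_int`: N equal steps u_j = α + (β-α) j/N.  For p ∈ Cell x u_j u_(j+1): log p/log x > u_j, so 1/(c - log p/log x) ≥ 1/(c - u_j) (all denominators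
≥ c - β > 0), hence the sum is ≥ ∑_j (log(u_(j+1)/u_j) - ε')/(c - u_j).  With G(u) = (1/c) log(u/(c-u)), G' = 1/(u(c-u)):
G(u_(j+1)) - G(u_j) ≤ log(u_(j+1)/u_j)/(c - u_(j+1)) ≤ log(u_(j+1)/u_j) (1/(c-u_j) + (β-α)/(N (c-β)²)); sum over j: the loss is
≤ (β-α) log(β/α)/(N (c-β)²) + N ε'/(c-β) ≤ ε for N large, then ε' small.
-/

set_option autoImplicit false

namespace Pool.Agent.H76.ISE

open Finset Filter Pool.Agent.H36.IS

private theorem MerL_cell {x : ℕ} (hx : 1 ≤ x) {α β : ℝ} (hβ : β ≤ 1) :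
    Cell x α β = Pool.Agent.H91.Gold.Pr ⌊(x : ℝ) ^ α⌋₊ ⌊(x : ℝ) ^ β⌋₊ := by
  have hx0 : (0 : ℝ) ≤ x := Nat.cast_nonneg x
  have hx1 : (1 : ℝ) ≤ x := by exact_mod_cast hx
  ext p
  simp only [Cell, Pool.Agent.H91.Gold.Pr, mem_filter, mem_range, mem_Ioc]
  rw [Nat.floor_lt (Real.rpow_nonneg hx0 α), Nat.le_floor_iff (Real.rpow_nonneg hx0 β)]
  constructor
  · rintro ⟨_, h2, h3, h4⟩
    exact ⟨⟨h3, h4⟩, h2⟩
  · rintro ⟨⟨h3, h4⟩, h2⟩
    refine ⟨?_, h2, h3, h4⟩
    have h5 : (x : ℝ) ^ β ≤ (x : ℝ) ^ (1 : ℝ) := Real.rpow_le_rpow_of_exponent_le hx1 hβ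
    rw [Real.rpow_one] at h5
    have h6 : (p : ℝ) ≤ x := h4.trans h5
    have h7 : p ≤ x := by exact_mod_cast h6
    omega

private theorem MerL_log : Tendsto (fun x : ℕ => Real.log (x : ℝ)) atTop atTop :=
  Real.tendsto_log_atTop.comp tendsto_natCast_atTop_atTop

private theorem MerL_pow {α : ℝ} (hα : 0 < α) (A : ℝ) : ∀ᶠ x : ℕ in atTop, A ≤ (x : ℝ) ^ α :=
  ((tendsto_rpow_atTop hα).comp tendsto_natCast_atTop_atTop).eventually_ge_atTop A

/-- `log ⌊t⌋ ≥ log t - log 2` for `t ≥ 2` -/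
private theorem MerL_floor {t : ℝ} (ht : 2 ≤ t) : Real.log t - Real.log 2 ≤ Real.log (⌊t⌋₊ : ℝ) := by
  have h1 : t / 2 ≤ (⌊t⌋₊ : ℝ) := by
    have := Nat.lt_floor_add_one t
    linarith
  have h2 : Real.log (t / 2) ≤ Real.log (⌊t⌋₊ : ℝ) := Real.log_le_log (by linarith) h1
  rwa [Real.log_div (by linarith) (by norm_num)] at h2

theorem mert_low (α β ε : ℝ) (hα : 0 < α) (hαβ : α ≤ β) (hβ : β ≤ 1) (hε : 0 < ε) : ∀ᶠ x : ℕ in atTop,
    Real.log (β / α) - ε ≤ ∑ p ∈ Cell x α β, 1 / (p : ℝ) := by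
  have hβ0 : 0 < β := hα.trans_le hαβ
  have hT1 : Tendsto (fun x : ℕ => Real.log (β / α - Real.log 2 / α / Real.log x)) atTop
      (nhds (Real.log (β / α))) := by
    have h1 : Tendsto (fun x : ℕ => β / α - Real.log 2 / α / Real.log x) atTop
        (nhds (β / α - 0)) :=
      tendsto_const_nhds.sub (MerL_log.const_div_atTop _)
    rw [sub_zero] at h1
    exact h1.log (div_pos hβ0 hα).ne'
  have hT2 : Tendsto (fun x : ℕ => 0.25 / (α * Real.log x - Real.log 2)) atTop (nhds 0) := by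
    have h1 : Tendsto (fun x : ℕ => α * Real.log x - Real.log 2) atTop atTop :=
      tendsto_atTop_add_const_right _ _ (MerL_log.const_mul_atTop hα)
    exact h1.const_div_atTop _
  have hT := (hT1.sub hT2).eventually_const_lt
    (show Real.log (β / α) - ε < Real.log (β / α) - 0 by linarith)
  filter_upwards [hT, MerL_pow hα 65537, MerL_pow hβ0 2, eventually_ge_atTop 3,
    MerL_log.eventually_gt_atTop (2 * Real.log 2 / α)] with x h1 h2 h3 h4 h5
  have hx1 : (1 : ℝ) ≤ x := by exact_mod_cast (by omega : 1 ≤ x)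
  have hx0 : (0 : ℝ) < x := by linarith
  have hl2 : 0 < Real.log 2 := Real.log_pos (by norm_num)
  have hL : 0 < Real.log x := lt_trans (by positivity) h5
  have hαL : 2 * Real.log 2 < α * Real.log x := by
    rw [div_lt_iff₀ hα] at h5
    linarith
  have hβL : α * Real.log x ≤ β * Real.log x := mul_le_mul_of_nonneg_right hαβ hL.le
  rw [MerL_cell (by omega) hβ]
  set w := ⌊(x : ℝ) ^ α⌋₊ with hw
  set z := ⌊(x : ℝ) ^ β⌋₊ with hz
  have hw1 : 65536 ≤ w := Nat.le_floor (by push_cast; linarith)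
  have hwz : w ≤ z := Nat.floor_le_floor (Real.rpow_le_rpow_of_exponent_le hx1 hαβ)
  have hmain := Pool.Agent.H91.PK.mertens_lower hw1 hwz
  have hw0 : (0 : ℝ) < w := by exact_mod_cast (by omega : 0 < w)
  -- logarithms
  have hlw1 : Real.log w ≤ α * Real.log x := by
    rw [← Real.log_rpow hx0]
    exact Real.log_le_log hw0 (Nat.floor_le (Real.rpow_nonneg hx0.le _))
  have hlw2 : α * Real.log x - Real.log 2 ≤ Real.log w := by
    rw [← Real.log_rpow hx0]
    exact MerL_floor (by linarith)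
  have hlz : β * Real.log x - Real.log 2 ≤ Real.log z := by
    rw [← Real.log_rpow hx0]
    exact MerL_floor h3
  have hlw0 : 0 < Real.log w := by linarith
  have h6 : β / α - Real.log 2 / α / Real.log x ≤ Real.log z / Real.log w := by
    calc β / α - Real.log 2 / α / Real.log x = (β * Real.log x - Real.log 2) / (α * Real.log x) := by
          field_simp
      _ ≤ (β * Real.log x - Real.log 2) / Real.log w :=
          div_le_div_of_nonneg_left (by linarith) hlw0 hlw1
      _ ≤ Real.log z / Real.log w := div_le_div_of_nonneg_right hlz hlw0.le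
  have h7 : 0 < β / α - Real.log 2 / α / Real.log x := by
    have : β / α - Real.log 2 / α / Real.log x = (β * Real.log x - Real.log 2) / (α * Real.log x) := by
      field_simp
    rw [this]
    exact div_pos (by linarith) (by linarith)
  have h8 := Real.log_le_log h7 h6
  have h9 : 0.25 / Real.log w ≤ 0.25 / (α * Real.log x - Real.log 2) :=
    div_le_div_of_nonneg_left (by norm_num) (by linarith) hlw2
  simp only [one_div] at hmain h1 ⊢
  linarith

private theorem MerL_union {x : ℕ} (hx : 1 ≤ x) {α u v : ℝ} (h1 : α ≤ u) (h2 : u ≤ v) (f : ℕ → ℝ) :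
    ∑ p ∈ Cell x α v, f p = ∑ p ∈ Cell x α u, f p + ∑ p ∈ Cell x u v, f p := by
  classical
  have hx1 : (1 : ℝ) ≤ x := by exact_mod_cast hx
  have e1 : (x : ℝ) ^ α ≤ (x : ℝ) ^ u := Real.rpow_le_rpow_of_exponent_le hx1 h1
  have e2 : (x : ℝ) ^ u ≤ (x : ℝ) ^ v := Real.rpow_le_rpow_of_exponent_le hx1 h2
  rw [← Finset.sum_union]
  · congr 1
    ext p
    simp only [Cell, mem_union, mem_filter]
    constructor
    · rintro ⟨a, b, c, d⟩
      rcases le_or_gt (p : ℝ) ((x : ℝ) ^ u) with h | h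
      · exact Or.inl ⟨a, b, c, h⟩
      · exact Or.inr ⟨a, b, h, d⟩
    · rintro (⟨a, b, c, d⟩ | ⟨a, b, c, d⟩)
      · exact ⟨a, b, c, d.trans e2⟩
      · exact ⟨a, b, lt_of_le_of_lt e1 c, d⟩
  · rw [Finset.disjoint_left]
    intro p hp hq
    simp only [Cell, mem_filter] at hp hq
    linarith [hp.2.2.2, hq.2.2.1]

/-- the elementary inequality for one cell -/
private theorem MerL_ineq {c α β u v : ℝ} (hα : 0 < α) (hβc : β < c) (h1 : α ≤ u) (h2 : u ≤ v)
    (h3 : v ≤ β) :
    (1 / c) * (Real.log (v / (c - v)) - Real.log (u / (c - u))) - 1 / ((c - β) ^ 2 * α) * (v - u) ^ 2 ≤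
      Real.log (v / u) / (c - u) := by
  have hu : 0 < u := by linarith
  have hv : 0 < v := by linarith
  have hc : 0 < c := by linarith
  have hcu : 0 < c - u := by linarith
  have hcv : 0 < c - v := by linarith
  have hcb : 0 < c - β := by linarith
  have e1 : (v - u) / v ≤ Real.log (v / u) := by
    have := Real.one_sub_inv_le_log_of_pos (div_pos hv hu)
    rw [inv_div] at this
    have h4 : 1 - u / v = (v - u) / v := by field_simp
    rwa [h4] at this
  have e2 : Real.log ((c - u) / (c - v)) ≤ (v - u) / (c - v) := by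
    have := Real.log_le_sub_one_of_pos (div_pos hcu hcv)
    have h4 : (c - u) / (c - v) - 1 = (v - u) / (c - v) := by field_simp; ring
    rwa [h4] at this
  have e3 : Real.log (v / (c - v)) - Real.log (u / (c - u)) =
      Real.log (v / u) + Real.log ((c - u) / (c - v)) := by
    rw [Real.log_div hv.ne' hcv.ne', Real.log_div hu.ne' hcu.ne', Real.log_div hv.ne' hu.ne',
      Real.log_div hcu.ne' hcv.ne']
    ring
  rw [e3]
  have e4 : Real.log (v / u) / (c - u) - (1 / c) * Real.log (v / u) =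
      u / (c * (c - u)) * Real.log (v / u) := by
    field_simp
    ring
  have e5 : u / (c * (c - u)) * ((v - u) / v) ≤ u / (c * (c - u)) * Real.log (v / u) :=
    mul_le_mul_of_nonneg_left e1 (by positivity)
  have e6 : (1 / c) * Real.log ((c - u) / (c - v)) ≤ (1 / c) * ((v - u) / (c - v)) :=
    mul_le_mul_of_nonneg_left e2 (by positivity)
  have e7 : (1 / c) * ((v - u) / (c - v)) - u / (c * (c - u)) * ((v - u) / v) =
      1 / ((c - v) * (c - u) * v) * (v - u) ^ 2 := by
    field_simp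
    ring
  have e8 : 1 / ((c - v) * (c - u) * v) ≤ 1 / ((c - β) ^ 2 * α) := by
    apply one_div_le_one_div_of_le (by positivity)
    have h5 : (c - β) ^ 2 ≤ (c - v) * (c - u) := by
      rw [sq]
      exact mul_le_mul (by linarith) (by linarith) hcb.le hcv.le
    exact mul_le_mul h5 (by linarith) hα.le (by positivity)
  have e9 : 1 / ((c - v) * (c - u) * v) * (v - u) ^ 2 ≤ 1 / ((c - β) ^ 2 * α) * (v - u) ^ 2 :=
    mul_le_mul_of_nonneg_right e8 (sq_nonneg _)
  rw [mul_add]
  linarith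

private theorem MerL_local {c α β u v : ℝ} (hα : 0 < α) (hβ : β ≤ 1) (hβc : β < c) (h1 : α ≤ u)
    (h2 : u ≤ v) (h3 : v ≤ β) {ε : ℝ} (hε : 0 < ε) : ∀ᶠ x : ℕ in atTop,
    (1 / c) * (Real.log (v / (c - v)) - Real.log (u / (c - u))) - 1 / ((c - β) ^ 2 * α) * (v - u) ^ 2 - ε ≤
      ∑ p ∈ Cell x u v, 1 / (p : ℝ) * (1 / (c - Real.log p / Real.log x)) := by
  have hu : 0 < u := by linarith
  have hcu : 0 < c - u := by linarith
  filter_upwards [mert_low u v (ε * (c - u)) hu h2 (h3.trans hβ) (mul_pos hε hcu),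
    MerL_log.eventually_gt_atTop 0, eventually_ge_atTop 1] with x hx hL hx1
  have hx0 : (0 : ℝ) < x := by exact_mod_cast hx1
  have e1 : (∑ p ∈ Cell x u v, 1 / (p : ℝ)) * (1 / (c - u)) ≤
      ∑ p ∈ Cell x u v, 1 / (p : ℝ) * (1 / (c - Real.log p / Real.log x)) := by
    rw [Finset.sum_mul]
    refine Finset.sum_le_sum fun p hp => ?_
    simp only [Cell, mem_filter] at hp
    obtain ⟨_, hpp, hp1, hp2⟩ := hp
    have hp0 : (0 : ℝ) < p := by exact_mod_cast hpp.pos
    refine mul_le_mul_of_nonneg_left ?_ (by positivity)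
    have e2 : u < Real.log p / Real.log x := by
      rw [lt_div_iff₀ hL, ← Real.log_rpow hx0]
      exact Real.log_lt_log (Real.rpow_pos_of_pos hx0 _) hp1
    have e3 : Real.log p / Real.log x ≤ v := by
      rw [div_le_iff₀ hL, ← Real.log_rpow hx0]
      exact Real.log_le_log hp0 hp2
    apply one_div_le_one_div_of_le
    · linarith
    · linarith
  have e2 : (Real.log (v / u) - ε * (c - u)) * (1 / (c - u)) ≤
      (∑ p ∈ Cell x u v, 1 / (p : ℝ)) * (1 / (c - u)) :=
    mul_le_mul_of_nonneg_right hx (by positivity)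
  have e3 : (Real.log (v / u) - ε * (c - u)) * (1 / (c - u)) = Real.log (v / u) / (c - u) - ε := by
    field_simp
  have e4 := MerL_ineq hα hβc h1 h2 h3
  linarith

theorem mert_int (c α β ε : ℝ) (hα : 0 < α) (hαβ : α ≤ β) (hβ : β ≤ 1) (hβc : β < c) (hε : 0 < ε) :
    ∀ᶠ x : ℕ in atTop, (1 / c) * Real.log (β * (c - α) / (α * (c - β))) - ε ≤
      ∑ p ∈ Cell x α β, 1 / (p : ℝ) * (1 / (c - Real.log p / Real.log x)) := by
  set M : ℝ := 1 / ((c - β) ^ 2 * α) with hM
  have hcb : 0 < c - β := by linarith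
  have hM0 : 0 < M := by positivity
  obtain ⟨N, hN⟩ := exists_nat_gt (2 * (M * (β - α) ^ 2) / ε)
  have hN0 : 0 < (N : ℝ) := lt_of_le_of_lt (by positivity) hN
  set d : ℝ := (β - α) / N with hd
  have hd0 : 0 ≤ d := div_nonneg (by linarith) hN0.le
  set ε' : ℝ := ε / (2 * N) with hε'
  have hε'0 : 0 < ε' := by positivity
  have hNd : (N : ℝ) * d = β - α := by rw [hd]; field_simp
  -- induction over the cells
  have hind : ∀ n : ℕ, n ≤ N → ∀ᶠ x : ℕ in atTop,
      (1 / c) * (Real.log ((α + n * d) / (c - (α + n * d))) - Real.log (α / (c - α))) -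
        n * (M * d ^ 2) - n * ε' ≤
      ∑ p ∈ Cell x α (α + n * d), 1 / (p : ℝ) * (1 / (c - Real.log p / Real.log x)) := by
    intro n
    induction n with
    | zero =>
      intro _
      refine Eventually.of_forall fun x => ?_
      have : Cell x α (α + ((0 : ℕ) : ℝ) * d) = ∅ := by
        rw [Finset.eq_empty_iff_forall_notMem]
        intro p hp
        simp only [Cell, mem_filter] at hp
        obtain ⟨_, _, h1, h2⟩ := hp
        rw [Nat.cast_zero, zero_mul, add_zero] at h2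
        linarith
      rw [this, Finset.sum_empty, Nat.cast_zero]
      simp
    | succ n ih =>
      intro hn
      have hn' : (n : ℝ) + 1 ≤ N := by exact_mod_cast hn
      have h1 : α ≤ α + n * d := by
        have : 0 ≤ (n : ℝ) * d := mul_nonneg (Nat.cast_nonneg n) hd0
        linarith
      have h2 : α + n * d ≤ α + ((n + 1 : ℕ) : ℝ) * d := by
        push_cast
        linarith
      have h3 : α + ((n + 1 : ℕ) : ℝ) * d ≤ β := by
        push_cast
        have := mul_le_mul_of_nonneg_right hn' hd0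
        linarith
      filter_upwards [ih (by omega), MerL_local hα hβ hβc h1 h2 h3 hε'0, eventually_ge_atTop 1]
        with x hx1 hx2 hx3
      rw [MerL_union hx3 h1 h2]
      have e1 : α + ((n + 1 : ℕ) : ℝ) * d - (α + n * d) = d := by push_cast; ring
      rw [e1] at hx2
      have e2 : ((n + 1 : ℕ) : ℝ) * (M * d ^ 2) = n * (M * d ^ 2) + M * d ^ 2 := by push_cast; ring
      have e3 : ((n + 1 : ℕ) : ℝ) * ε' = n * ε' + ε' := by push_cast; ring
      rw [e2, e3]
      have e4 : (1 / c) * (Real.log ((α + ((n + 1 : ℕ) : ℝ) * d) / (c - (α + ((n + 1 : ℕ) : ℝ) * d))) -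
          Real.log (α / (c - α))) =
          (1 / c) * (Real.log ((α + ((n + 1 : ℕ) : ℝ) * d) / (c - (α + ((n + 1 : ℕ) : ℝ) * d))) -
            Real.log ((α + n * d) / (c - (α + n * d)))) +
          (1 / c) * (Real.log ((α + n * d) / (c - (α + n * d))) - Real.log (α / (c - α))) := by ring
      rw [e4]
      linarith
  filter_upwards [hind N le_rfl] with x hx
  have e0 : α + (N : ℝ) * d = β := by rw [hNd]; ring
  rw [e0] at hx
  refine le_trans ?_ hx
  have hβ0 : 0 < β := by linarith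
  have hca : 0 < c - α := by linarith
  have e1 : Real.log (β * (c - α) / (α * (c - β))) =
      Real.log (β / (c - β)) - Real.log (α / (c - α)) := by
    rw [← Real.log_div (by positivity) (by positivity)]
    congr 1
    field_simp
  rw [e1]
  have e2 : (N : ℝ) * ε' = ε / 2 := by rw [hε']; field_simp
  have e3 : (N : ℝ) * (M * d ^ 2) ≤ ε / 2 := by
    have h4 : (N : ℝ) * (M * d ^ 2) = M * (β - α) ^ 2 / N := by
      rw [hd]; field_simp
    rw [h4, div_le_iff₀ hN0]
    rw [div_lt_iff₀ hε] at hN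
    linarith
  linarith

end Pool.Agent.H76.ISE
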